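import Pool.Agent.TH673.VG.Crit
import Pool.Agent.TH673.VG.CritInd

/-! A local condition on value groups, outside a large subgroup. -/

set_option autoImplicit false

namespace Pool.Agent.X269.ET

open Pool.Agent.H315R3.ETC Pool.Agent.TH673.VG

/-- the value group `V(a)`: the subgroup generated by the `b` with `q(a,b) = 0` (these `b` form a
subgroup) -/
def V (S : QData) (a : S.G) : Subgroup S.G := Subgroup.closure {b | S.q a b = S.zero}

/-- the subgroup `L` contains every `a` such that `V(a)` has index at most two, or `V(a) L = G`, or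
`V(a) V(ag) = G` for some `g ∈ L` -/
def Saturated (S : QData) (L : Subgroup S.G) : Prop :=
  (∀ a, (V S a).index ≤ 2 → a ∈ L) ∧ (∀ a, V S a ⊔ L = ⊤ → a ∈ L) ∧
    ∀ a, ∀ g ∈ L, V S a ⊔ V S (a * g) = ⊤ → a ∈ L

/-- the smallest saturated subgroup -/
def largeCore (S : QData) : Subgroup S.G := sInf {L : Subgroup S.G | Saturated S L}

/-- the condition at `a, g, h`: with `D = C ⟨g,h⟩`, `C` the smallest saturated subgroup, if
`a ∉ D` and `D` has index at least eight, then one of the groups `V(a) D` and `V(ag) D` contains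
the other, or `V(ah)` is contained in the union of `V(a) V(ag)`, `V(a) D` and `V(ag) D` -/
def LocalCondition (S : QData) (a g h : S.G) : Prop :=
  ∀ D : Subgroup S.G, D = largeCore S ⊔ Subgroup.closure {g, h} → a ∉ D → 8 ≤ D.index →
    V S (a * g) ≤ V S a ⊔ D ∨ V S a ≤ V S (a * g) ⊔ D ∨
    ∀ x ∈ V S (a * h), x ∈ V S a ⊔ V S (a * g) ∨ x ∈ V S a ⊔ D ∨ x ∈ V S (a * g) ⊔ D

theorem mem_V {S : QData} (hS : IsQuat S) {a x : S.G} : x ∈ V S a ↔ S.q a x = S.zero := by
  have q1 : S.q a 1 = S.zero := by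
    have := (hS.qs3 a 1 1).1 rfl
    rwa [mul_one] at this
  constructor
  · intro hx
    refine Subgroup.closure_induction (p := fun x _ => S.q a x = S.zero) (fun x hx => hx) q1
      ?_ ?_ hx
    · intro x y _ _ hx hy
      exact (hS.qs3 a x y).1 (hx.trans hy.symm)
    · intro x _ hx
      have : x⁻¹ = x := inv_eq_of_mul_eq_one_left (hS.exp2 x)
      rw [this]
      exact hx
  · intro hx
    exact Subgroup.subset_closure hx

theorem mem_sup' {S : QData} {A B : Subgroup S.G} {x : S.G} (h : x ∈ A ⊔ B) :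
    ∃ v ∈ A, ∃ k ∈ B, v * k = x := Subgroup.mem_sup.1 h

theorem indexTwo_of_index {S : QData} (hS : IsQuat S) [Finite S.G] {a : S.G}
    (h : (V S a).index ≤ 2) : IndexTwo S a := by
  have h0 : (V S a).index ≠ 0 := Subgroup.FiniteIndex.index_ne_zero
  intro x y
  rw [← mem_V hS, ← mem_V hS, ← mem_V hS]
  have h3 : (V S a).index = 1 ∨ (V S a).index = 2 := by omega
  rcases h3 with h3 | h3
  · refine Or.inl ?_
    rw [Subgroup.index_eq_one.1 h3]
    trivial
  · by_cases hx : x ∈ V S a
    · exact Or.inl hx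
    by_cases hy : y ∈ V S a
    · exact Or.inr (Or.inl hy)
    · exact Or.inr (Or.inr ((Subgroup.mul_mem_iff_of_index_two h3).2
        ⟨fun h => absurd h hx, fun h => absurd h hy⟩))

theorem elem_of_local {S : QData} (hS : IsQuat S) (hf : Finite S.G)
    (hT : (largeCore S).index ≤ 4 ∨ ∀ a g h : S.G, LocalCondition S a g h) : Elem S := by
  classical
  refine elem_of_step hS fun H hH hI => ?_
  by_cases hCH : largeCore S ≤ H
  · by_cases hi : H.index < 8
    · exact stepTwo_of_step (step_of_index hS H hH hi)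
    rcases hT with hT | hT
    · exfalso
      have h1 := Subgroup.index_dvd_of_le hCH
      have h2 : (largeCore S).index ≠ 0 := Subgroup.FiniteIndex.index_ne_zero
      have h3 := Nat.le_of_dvd (Nat.pos_of_ne_zero h2) h1
      omega
    obtain ⟨a, ha, hmax⟩ : ∃ a : S.G, a ∉ H ∧ ∀ b : S.G, b ∉ H →
        V S a ⊔ H ≤ V S b ⊔ H → V S b ⊔ H ≤ V S a ⊔ H := by
      obtain ⟨b, hb⟩ := exists_notMem hH
      have hfs : Set.Finite {a : S.G | a ∉ H} := Set.toFinite _
      obtain ⟨a, h3, h4⟩ := Set.exists_max_image _ (fun a => Nat.card ↥(V S a ⊔ H)) hfs ⟨b, hb⟩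
      refine ⟨a, h3, fun b hb hle => ?_⟩
      have h5 := h4 b hb
      have h6 : V S a ⊔ H = V S b ⊔ H := by
        refine SetLike.coe_injective (Set.eq_of_subset_of_ncard_le hle ?_ (Set.toFinite _))
        exact h5
      rw [h6]
    by_cases hg : ∀ g ∈ H, V S (a * g) ≤ V S a ⊔ H
    · refine stepTwo_of_step ⟨a, ha, fun h hh x hx => ?_⟩
      obtain ⟨v, hv, k, hk, e⟩ := mem_sup' (hg h hh ((mem_V hS).2 hx))
      exact ⟨v, k, (mem_V hS).1 hv, hk, e⟩
    · push Not at hg
      obtain ⟨g, hgH, hgn⟩ := hg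
      refine ⟨a, ha, g, hgH, fun h hh x hx => ?_⟩
      have hDH : largeCore S ⊔ Subgroup.closure {g, h} ≤ H := by
        refine sup_le hCH ((Subgroup.closure_le _).2 ?_)
        rintro y (rfl | rfl)
        · exact hgH
        · exact hh
      have hDi : 8 ≤ (largeCore S ⊔ Subgroup.closure {g, h}).index := by
        have h1 := Subgroup.index_dvd_of_le hDH
        have h2 : (largeCore S ⊔ Subgroup.closure {g, h}).index ≠ 0 :=
          Subgroup.FiniteIndex.index_ne_zero
        have h3 := Nat.le_of_dvd (Nat.pos_of_ne_zero h2) h1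
        omega
      rcases hT a g h _ rfl (fun h1 => ha (hDH h1)) hDi with h1 | h1 | h1
      · exact absurd (h1.trans (sup_le_sup_left hDH _)) hgn
      · exfalso
        apply hgn
        have hag : a * g ∉ H := fun h2 => ha ((H.mul_mem_cancel_right hgH).1 h2)
        have h3 := hmax (a * g) hag (sup_le (h1.trans (sup_le_sup_left hDH _)) le_sup_right)
        exact le_sup_left.trans h3
      · rcases h1 x ((mem_V hS).2 hx) with h2 | h2 | h2
        · obtain ⟨v, hv, k, hk, e⟩ := mem_sup' h2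
          exact Or.inr ⟨v, k, (mem_V hS).1 hv, (mem_V hS).1 hk, e⟩
        · obtain ⟨v, hv, k, hk, e⟩ := mem_sup' h2
          exact Or.inl ⟨v, k, Or.inl ((mem_V hS).1 hv), hDH hk, e⟩
        · obtain ⟨v, hv, k, hk, e⟩ := mem_sup' h2
          exact Or.inl ⟨v, k, Or.inr ((mem_V hS).1 hv), hDH hk, e⟩
  · have hns : ¬ Saturated S H := fun h => hCH (sInf_le h)
    have h2 : (∃ a, V S a ⊔ H = ⊤ ∧ a ∉ H) ∨ ∃ a, ∃ g ∈ H, V S a ⊔ V S (a * g) = ⊤ ∧ a ∉ H := by
      by_contra hcon
      push Not at hcon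
      exact hns ⟨fun a ha => hI a (indexTwo_of_index hS ha), hcon.1, fun a g hg => hcon.2 a g hg⟩
    rcases h2 with ⟨a, h3, ha⟩ | ⟨a, g, hg, h3, ha⟩
    · refine stepTwo_of_step ⟨a, ha, fun h _ x _ => ?_⟩
      obtain ⟨v, hv, k, hk, e⟩ := mem_sup' (show x ∈ V S a ⊔ H by rw [h3]; trivial)
      exact ⟨v, k, (mem_V hS).1 hv, hk, e⟩
    · refine ⟨a, ha, g, hg, fun h _ x _ => Or.inr ?_⟩
      obtain ⟨v, hv, k, hk, e⟩ := mem_sup' (show x ∈ V S a ⊔ V S (a * g) by rw [h3]; trivial)
      exact ⟨v, k, (mem_V hS).1 hv, (mem_V hS).1 hk, e⟩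

/-- `a` is rigid: `V(a) = {1, -a}` -/
def Rigid (S : QData) (a : S.G) : Prop := ∀ x ∈ V S a, x = 1 ∨ x = S.neg * a

/-- value groups of elements which are not rigid, outside the smallest saturated subgroup: two of
them are comparable, or their product contains all of them -/
def Comparable (S : QData) : Prop :=
  ∀ a b c : S.G, a ∉ largeCore S → b ∉ largeCore S → c ∉ largeCore S →
    ¬ Rigid S a → ¬ Rigid S b → ¬ Rigid S c →
    V S a ≤ V S b ∨ V S b ≤ V S a ∨ V S c ≤ V S a ⊔ V S b

theorem local_of_comparable {S : QData} (hS : IsQuat S) (hC : Comparable S) (a g h : S.G) :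
    LocalCondition S a g h := by
  intro D hD ha _
  have hgD : g ∈ D := by
    rw [hD]
    exact le_sup_right (a := largeCore S) (Subgroup.subset_closure (Or.inl rfl))
  have hhD : h ∈ D := by
    rw [hD]
    exact le_sup_right (a := largeCore S) (Subgroup.subset_closure (Or.inr rfl))
  have hCD : largeCore S ≤ D := by
    rw [hD]
    exact le_sup_left
  have hout : ∀ k ∈ D, a * k ∉ largeCore S := fun k hk h1 =>
    ha ((D.mul_mem_cancel_right hk).1 (hCD h1))
  have haC : a ∉ largeCore S := fun h1 => ha (hCD h1)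
  -- rigid elements
  have hrig : ∀ b k : S.G, k ∈ D → Rigid S (b * k) → V S (b * k) ≤ V S b ⊔ D := by
    intro b k hk hr x hx
    rcases hr x hx with rfl | rfl
    · exact one_mem _
    · rw [← mul_assoc]
      exact mul_mem (le_sup_left (b := D) ((mem_V hS).2 (hS.qs1 b)))
        (le_sup_right (a := V S b) hk)
  by_cases r1 : Rigid S (a * g)
  · exact Or.inl (hrig a g hgD r1)
  by_cases r2 : Rigid S a
  · have e : a * g * g = a := by rw [mul_assoc, hS.exp2, mul_one]
    have h1 := hrig (a * g) g hgD (by rw [e]; exact r2)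
    rw [e] at h1
    exact Or.inr (Or.inl h1)
  by_cases r3 : Rigid S (a * h)
  · exact Or.inr (Or.inr fun x hx => Or.inr (Or.inl (hrig a h hhD r3 hx)))
  rcases hC a (a * g) (a * h) haC (hout g hgD) (hout h hhD) r2 r1 r3 with h1 | h1 | h1
  · exact Or.inr (Or.inl (h1.trans le_sup_left))
  · exact Or.inl (h1.trans le_sup_left)
  · exact Or.inr (Or.inr fun x hx => Or.inl (h1 hx))

end Pool.Agent.X269.ET
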