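import Pool.Agent.X269.ET.Comp
import Pool.Agent.TH673.VG.FieldInd

/-! The local condition on norm groups of a field. -/

set_option autoImplicit false

namespace Pool.Agent.X269.ET

open Pool.Agent.H315R3.ETC Pool.Agent.TH188.ET
open Pool.Agent.TH673.VG (normGroup mem_normGroup)

variable {F : Type*} [Field F]

/-- the subgroup `L` of `F*` contains every `a` such that `N(a)` has index at most two, or
`N(a) L = F*`, or `N(a) N(ag) = F*` for some `g ∈ L` -/
def NormSaturated (L : Subgroup Fˣ) : Prop :=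
  (∀ a : Fˣ, (normGroup a).index ≤ 2 → a ∈ L) ∧ (∀ a : Fˣ, normGroup a ⊔ L = ⊤ → a ∈ L) ∧
    ∀ a : Fˣ, ∀ g ∈ L, normGroup a ⊔ normGroup (a * g) = ⊤ → a ∈ L

/-- the smallest saturated subgroup of `F*` -/
def fieldLargeCore (F : Type*) [Field F] : Subgroup Fˣ := sInf {L : Subgroup Fˣ | NormSaturated L}

/-- the condition at `a, g, h`: with `D = C ⟨g,h⟩`, `C` the smallest saturated subgroup, if
`a ∉ D` and `D` has index at least eight, then one of the groups `N(a) D` and `N(ag) D` contains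
the other, or `N(ah)` is contained in the union of `N(a) N(ag)`, `N(a) D` and `N(ag) D` -/
def NormCondition (a g h : Fˣ) : Prop :=
  ∀ D : Subgroup Fˣ, D = fieldLargeCore F ⊔ Subgroup.closure {g, h} → a ∉ D → 8 ≤ D.index →
    normGroup (a * g) ≤ normGroup a ⊔ D ∨ normGroup a ≤ normGroup (a * g) ⊔ D ∨
    ∀ x ∈ normGroup (a * h), x ∈ normGroup a ⊔ normGroup (a * g) ∨ x ∈ normGroup a ⊔ D ∨
      x ∈ normGroup (a * g) ⊔ D

/-- `a` is rigid: `N(a) = F*² ∪ -a F*²` -/
def NormRigid (a : Fˣ) : Prop := ∀ x ∈ normGroup a, ∃ s : Fˣ, x = s ^ 2 ∨ x = -a * s ^ 2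

/-- norm groups of elements which are not rigid, outside the smallest saturated subgroup: two of
them are comparable, or their product contains all of them -/
def NormComparable (F : Type*) [Field F] : Prop :=
  ∀ a b c : Fˣ, a ∉ fieldLargeCore F → b ∉ fieldLargeCore F → c ∉ fieldLargeCore F →
    ¬ NormRigid a → ¬ NormRigid b → ¬ NormRigid c →
    normGroup a ≤ normGroup b ∨ normGroup b ≤ normGroup a ∨
      normGroup c ≤ normGroup a ⊔ normGroup b

section
variable {S : QData} {φ : Fˣ →* S.G}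

theorem comap_V (hS : IsQuat S)
    (hz : ∀ a b : Fˣ, S.q (φ a) (φ b) = S.zero ↔ NormFrom a b) (a : Fˣ) :
    (V S (φ a)).comap φ = normGroup a := by
  ext x
  rw [Subgroup.mem_comap, mem_V hS, hz, mem_normGroup]

theorem comap_top (hs : Function.Surjective φ) {A : Subgroup S.G} : A.comap φ = ⊤ ↔ A = ⊤ := by
  constructor
  · intro h
    rw [← Subgroup.map_comap_eq_self_of_surjective hs A, h, Subgroup.map_top_of_surjective φ hs]
  · rintro rfl
    exact Subgroup.comap_top φ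

theorem saturated_comap (hS : IsQuat S) (hs : Function.Surjective φ)
    (hz : ∀ a b : Fˣ, S.q (φ a) (φ b) = S.zero ↔ NormFrom a b) (L : Subgroup S.G) :
    NormSaturated (L.comap φ) ↔ Saturated S L := by
  have hi : ∀ a : Fˣ, (normGroup a).index = (V S (φ a)).index := fun a => by
    rw [← comap_V hS hz, Subgroup.index_comap_of_surjective _ hs]
  have h1 : ∀ a : Fˣ, normGroup a ⊔ L.comap φ = ⊤ ↔ V S (φ a) ⊔ L = ⊤ := fun a => by
    rw [← comap_V hS hz, Subgroup.comap_sup_eq _ _ _ hs, comap_top hs]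
  have h2 : ∀ a g : Fˣ, normGroup a ⊔ normGroup (a * g) = ⊤ ↔
      V S (φ a) ⊔ V S (φ a * φ g) = ⊤ := fun a g => by
    rw [← comap_V hS hz, ← comap_V hS hz, map_mul, Subgroup.comap_sup_eq _ _ _ hs, comap_top hs]
  constructor
  · rintro ⟨c1, c2, c3⟩
    refine ⟨fun a ha => ?_, fun a ha => ?_, fun a g hg ha => ?_⟩
    · obtain ⟨a, rfl⟩ := hs a
      exact c1 a (by rw [hi]; exact ha)
    · obtain ⟨a, rfl⟩ := hs a
      exact c2 a ((h1 a).2 ha)
    · obtain ⟨a, rfl⟩ := hs a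
      obtain ⟨g, rfl⟩ := hs g
      exact c3 a g hg ((h2 a g).2 ha)
  · rintro ⟨c1, c2, c3⟩
    exact ⟨fun a ha => c1 _ (by rw [← hi]; exact ha), fun a ha => c2 _ ((h1 a).1 ha),
      fun a g hg ha => c3 _ _ hg ((h2 a g).1 ha)⟩

theorem largeCore_comap (h2 : (2 : F) ≠ 0) (hS : IsQuat S) (hs : Function.Surjective φ)
    (hk : ∀ a : Fˣ, φ a = 1 ↔ ∃ b : Fˣ, a = b ^ 2)
    (hz : ∀ a b : Fˣ, S.q (φ a) (φ b) = S.zero ↔ NormFrom a b) :
    (largeCore S).comap φ = fieldLargeCore F ∧ φ.ker ≤ fieldLargeCore F := by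
  have hker : ∀ L : Subgroup Fˣ, NormSaturated L → φ.ker ≤ L := by
    intro L hL b hb
    refine hL.1 b ?_
    have ht : normGroup b = ⊤ := by
      rw [eq_top_iff]
      intro c _
      exact NormFrom.of_sq h2 b c ((hk b).1 hb)
    rw [ht, Subgroup.index_top]
    norm_num
  refine ⟨le_antisymm ?_ ?_, le_sInf hker⟩
  · intro x hx
    rw [fieldLargeCore, Subgroup.mem_sInf]
    intro L hL
    have e : (L.map φ).comap φ = L := Subgroup.comap_map_eq_self (hker L hL)
    have h4 : Saturated S (L.map φ) := (saturated_comap hS hs hz _).1 (by rw [e]; exact hL)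
    have h5 : φ x ∈ L.map φ := Subgroup.mem_sInf.1 hx (L.map φ) h4
    rw [← e]
    exact h5
  · intro x hx
    show φ x ∈ largeCore S
    rw [largeCore, Subgroup.mem_sInf]
    intro L hL
    exact Subgroup.mem_sInf.1 hx (L.comap φ) ((saturated_comap hS hs hz L).2 hL)

theorem local_of_norm (h2 : (2 : F) ≠ 0) (hS : IsQuat S) (hs : Function.Surjective φ)
    (hk : ∀ a : Fˣ, φ a = 1 ↔ ∃ b : Fˣ, a = b ^ 2)
    (hz : ∀ a b : Fˣ, S.q (φ a) (φ b) = S.zero ↔ NormFrom a b) (a g h : Fˣ)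
    (hN : NormCondition a g h) : LocalCondition S (φ a) (φ g) (φ h) := by
  obtain ⟨hC, hker⟩ := largeCore_comap h2 hS hs hk hz
  intro D hD ha hDi
  have hDc : D.comap φ = fieldLargeCore F ⊔ Subgroup.closure {g, h} := by
    have e1 : Subgroup.closure {φ g, φ h} = (Subgroup.closure {g, h}).map φ := by
      rw [MonoidHom.map_closure, Set.image_pair]
    rw [hD, ← Subgroup.comap_sup_eq _ _ _ hs, hC, e1, Subgroup.comap_map_eq, ← sup_assoc,
      sup_comm _ φ.ker, ← sup_assoc, sup_eq_right.2 hker]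
  have hsup : ∀ (b x : Fˣ) (A : Subgroup S.G), x ∈ normGroup b ⊔ A.comap φ ↔
      φ x ∈ V S (φ b) ⊔ A := by
    intro b x A
    rw [← comap_V hS hz, Subgroup.comap_sup_eq _ _ _ hs, Subgroup.mem_comap]
  have hle : ∀ b c : Fˣ, normGroup b ≤ normGroup c ⊔ D.comap φ → V S (φ b) ≤ V S (φ c) ⊔ D := by
    intro b c hbc y hy
    obtain ⟨y, rfl⟩ := hs y
    exact (hsup c y D).1 (hbc ((mem_normGroup).2 ((hz b y).1 ((mem_V hS).1 hy))))
  rcases hN (D.comap φ) hDc ha (by rw [Subgroup.index_comap_of_surjective _ hs]; exact hDi)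
    with h1 | h1 | h1
  · left
    rw [← map_mul]
    exact hle _ _ h1
  · right; left
    rw [← map_mul]
    exact hle _ _ h1
  · right; right
    rw [← map_mul, ← map_mul]
    intro y hy
    obtain ⟨y, rfl⟩ := hs y
    have hy' : y ∈ normGroup (a * h) := (mem_normGroup).2 ((hz _ y).1 ((mem_V hS).1 hy))
    rcases h1 y hy' with h3 | h3 | h3
    · left
      rw [← comap_V hS hz (a * g)] at h3
      exact (hsup a y _).1 h3
    · exact Or.inr (Or.inl ((hsup a y D).1 h3))
    · exact Or.inr (Or.inr ((hsup (a * g) y D).1 h3))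

theorem comparable_of_norm (h2 : (2 : F) ≠ 0) (hS : IsQuat S) (hs : Function.Surjective φ)
    (hk : ∀ a : Fˣ, φ a = 1 ↔ ∃ b : Fˣ, a = b ^ 2) (hn : φ (-1) = S.neg)
    (hz : ∀ a b : Fˣ, S.q (φ a) (φ b) = S.zero ↔ NormFrom a b)
    (hN : NormComparable F) : Comparable S := by
  obtain ⟨hC, -⟩ := largeCore_comap h2 hS hs hk hz
  have hrig : ∀ a : Fˣ, NormRigid a → Rigid S (φ a) := by
    intro a ha y hy
    obtain ⟨y, rfl⟩ := hs y
    obtain ⟨s, h1 | h1⟩ := ha y ((mem_normGroup).2 ((hz _ y).1 ((mem_V hS).1 hy)))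
    · left
      exact (hk y).2 ⟨s, h1⟩
    · right
      have h3 : φ (s ^ 2) = 1 := (hk _).2 ⟨s, rfl⟩
      rw [h1, map_mul, h3, mul_one, ← hn, ← map_mul, neg_one_mul]
  have hle : ∀ b c : Fˣ, normGroup b ≤ normGroup c → V S (φ b) ≤ V S (φ c) := by
    intro b c hbc y hy
    obtain ⟨y, rfl⟩ := hs y
    exact (mem_V hS).2 ((hz c y).2 ((mem_normGroup).1
      (hbc ((mem_normGroup).2 ((hz b y).1 ((mem_V hS).1 hy))))))
  intro a b c ha hb hc ra rb rc
  obtain ⟨a, rfl⟩ := hs a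
  obtain ⟨b, rfl⟩ := hs b
  obtain ⟨c, rfl⟩ := hs c
  have hout : ∀ x : Fˣ, φ x ∉ largeCore S → x ∉ fieldLargeCore F := by
    intro x hx h3
    rw [← hC] at h3
    exact hx h3
  rcases hN a b c (hout _ ha) (hout _ hb) (hout _ hc) (fun h => ra (hrig _ h))
    (fun h => rb (hrig _ h)) (fun h => rc (hrig _ h)) with h | h | h
  · exact Or.inl (hle _ _ h)
  · exact Or.inr (Or.inl (hle _ _ h))
  · refine Or.inr (Or.inr fun y hy => ?_)
    obtain ⟨y, rfl⟩ := hs y
    have h3 := h ((mem_normGroup).2 ((hz c y).1 ((mem_V hS).1 hy)))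
    rw [← comap_V hS hz a, ← comap_V hS hz b, Subgroup.comap_sup_eq _ _ _ hs] at h3
    exact h3

end

/-- fields satisfying one of the conditions -/
theorem field_elem (h2 : (2 : F) ≠ 0) (hfin : FinSq F)
    (h : (fieldLargeCore F).index ≤ 4 ∨ (∀ a g h : Fˣ, NormCondition a g h) ∨ NormComparable F) :
    ∃ S : QData, Elem S ∧ IsStructureOf F S := by
  obtain ⟨S, hS, hSfin, hSq⟩ := exists_structure h2 hfin
  obtain ⟨φ, hs, hk, hn, h0, hq⟩ := id hS
  have hz : ∀ a b : Fˣ, S.q (φ a) (φ b) = S.zero ↔ NormFrom a b := by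
    intro a b
    rw [← qiso_one h2, ← h0, ← map_one φ]
    exact hq a b 1 1
  refine ⟨S, ?_, hS⟩
  rcases h with h | h | h
  · refine elem_of_local hSq hSfin (Or.inl ?_)
    rw [← (largeCore_comap h2 hSq hs hk hz).1, Subgroup.index_comap_of_surjective _ hs] at h
    exact h
  · refine elem_of_local hSq hSfin (Or.inr fun a g k => ?_)
    obtain ⟨a, rfl⟩ := hs a
    obtain ⟨g, rfl⟩ := hs g
    obtain ⟨k, rfl⟩ := hs k
    exact local_of_norm h2 hSq hs hk hz a g k (h a g k)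
  · exact elem_of_local hSq hSfin (Or.inr (local_of_comparable hSq
      (comparable_of_norm h2 hSq hs hk hn hz h)))

end Pool.Agent.X269.ET
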