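import Pool.Agent.X269.ET.Pair
import Pool.Agent.X269.ET.FieldComp
import Pool.Agent.TH188.ET.FieldSmall

/-! Fields with pairs of norm groups whose product has index at most two. -/

set_option autoImplicit false

namespace Pool.Agent.X269.ET

open Pool.Agent.H315R3.ETC Pool.Agent.TH188.ET Pool.Agent.TH188.ETV Pool.Agent.TH188.ETF
open Pool.Agent.TH673.VG (normGroup mem_normGroup)

/-- in a structure: of two products with a common factor one has index at most two -/
theorem pairG_of_matching {S : QData} (hS : IsQuat S)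
    (h : ∀ x y z : S.G, Independent x y z →
      (V S x ⊔ V S y).index ≤ 2 ∨ (V S x ⊔ V S z).index ≤ 2) {x y z : S.G}
    (hi : Independent x y z) : PairG S x y z := by
  have h2 : ∀ a : S.G, a * a = 1 := hS.exp2
  have hc : ∀ a b : S.G, a * (a * b) = b := fun a b => by rw [← mul_assoc, h2, one_mul]
  have hne : ∀ a b : S.G, a * b = 1 → a = b := fun a b hab => by
    have := congrArg (a * ·) hab
    simp only [hc, mul_one] at this
    exact this.symm
  obtain ⟨h1, h2', h3, h4, h5, h6, h7⟩ := hi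
  -- the other independent triples of the plane
  have i1 : Independent y x z := ⟨h2', h1, fun e => h3 e.symm, h4, h6, h5, by rwa [mul_comm y x]⟩
  have i2 : Independent z x y := ⟨h4, h1, h5, h2', fun e => h6 e.symm, fun e => h3 e.symm,
    fun e => h7 (by rw [e, mul_comm z x, hc])⟩
  have i3 : Independent x y (x * y * z) := by
    refine ⟨h1, h2', h3, ?_, ?_, ?_, ?_⟩
    · intro e; exact h7 (hne _ _ e).symm
    · intro e
      refine h6 (hne y z ?_).symm
      have := congrArg (x * ·) e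
      simp only [mul_assoc, hc, h2] at this
      exact this
    · intro e
      refine h5 (hne z x ?_)
      rw [mul_comm x y, mul_assoc] at e
      have := congrArg (y * ·) e
      simp only [hc, h2] at this
      rw [mul_comm]; exact this
    · intro e
      exact h4 (mul_left_cancel (a := x * y) (by rw [e, mul_one]))
  have i4 : Independent z x (x * y * z) := by
    refine ⟨h4, h1, h5, i3.2.2.2.1, ?_, i3.2.2.2.2.1, ?_⟩
    · intro e
      exact h3 (hne x y (mul_right_cancel (b := z) (by rw [e, one_mul])))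
    · intro e
      refine h2' ?_
      have e' : x * y * z = x * z * 1 := by rw [mul_one, e, mul_comm]
      rw [mul_assoc, mul_assoc] at e'
      have e2 := mul_left_cancel e'
      rw [mul_comm y z] at e2
      exact mul_left_cancel e2
  -- the bad pairs form a matching
  by_cases hxy : (V S x ⊔ V S y).index ≤ 2
  · by_cases hzs : (V S z ⊔ V S (x * y * z)).index ≤ 2
    · exact ⟨x, y, z, x * y * z, List.Perm.refl _, Or.inl ⟨hxy, hzs⟩⟩
    · -- `z` and `xyz` is a bad pair
      have a1 : (V S z ⊔ V S x).index ≤ 2 := (h z x (x * y * z) i4).resolve_right hzs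
      have i5 : Independent z y (x * y * z) := by
        refine ⟨h4, h2', h6, i3.2.2.2.1, i4.2.2.2.2.1, i3.2.2.2.2.2.1, ?_⟩
        intro e
        refine h1 ?_
        have e' : x * y * z = 1 * (y * z) := by rw [one_mul, e, mul_comm]
        rw [mul_assoc] at e'
        exact mul_right_cancel e'
      have a2 : (V S z ⊔ V S y).index ≤ 2 := (h z y (x * y * z) i5).resolve_right hzs
      refine ⟨z, x, y, x * y * z, ?_, Or.inr ⟨a1, a2, hxy⟩⟩
      have p1 : List.Perm [z, x] [x, z] := List.Perm.swap _ _ _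
      have p2 : List.Perm [z, x, y] [x, y, z] := by
        refine (List.Perm.swap x z [y]).trans ?_
        exact List.Perm.cons x (List.Perm.swap y z [])
      exact p2.append_right [x * y * z]
  · have a1 : (V S x ⊔ V S z).index ≤ 2 := (h x y z ⟨h1, h2', h3, h4, h5, h6, h7⟩).resolve_left hxy
    have a2 : (V S y ⊔ V S z).index ≤ 2 := by
      refine (h y x z i1).resolve_left ?_
      rwa [sup_comm]
    have a3 : (V S x ⊔ V S (x * y * z)).index ≤ 2 := (h x y _ i3).resolve_left hxy
    have i6 : Independent y x (x * y * z) := by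
      refine ⟨h2', h1, fun e => h3 e.symm, i3.2.2.2.1, i3.2.2.2.2.2.1, i3.2.2.2.2.1, ?_⟩
      rw [mul_comm y x]
      exact i3.2.2.2.2.2.2
    have a4 : (V S y ⊔ V S (x * y * z)).index ≤ 2 := by
      refine (h y x _ i6).resolve_left ?_
      rwa [sup_comm]
    refine ⟨x, z, y, x * y * z, ?_, Or.inl ⟨a1, a4⟩⟩
    exact List.Perm.cons x (List.Perm.swap y z [_])

section
variable {F : Type*} [Field F]

/-- no product of some of the elements `x, y, z` (at least one) is a square -/
def NormIndependent (x y z : Fˣ) : Prop :=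
  ¬ IsSquare x ∧ ¬ IsSquare y ∧ ¬ IsSquare (x * y) ∧ ¬ IsSquare z ∧ ¬ IsSquare (x * z) ∧
    ¬ IsSquare (y * z) ∧ ¬ IsSquare (x * y * z)

/-- the elements `x, y, z, xyz` can be numbered as `p, q, r, s` such that `N(p) N(q)` and
`N(r) N(s)` have index at most two in `F*`, or `N(p) N(q)`, `N(p) N(r)` and `N(q) N(r)` have index
at most two in `F*` -/
def NormPair (x y z : Fˣ) : Prop :=
  ∃ p q r s : Fˣ, [p, q, r, s].Perm [x, y, z, x * y * z] ∧
    (((normGroup p ⊔ normGroup q).index ≤ 2 ∧ (normGroup r ⊔ normGroup s).index ≤ 2) ∨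
      ((normGroup p ⊔ normGroup q).index ≤ 2 ∧ (normGroup p ⊔ normGroup r).index ≤ 2 ∧
        (normGroup q ⊔ normGroup r).index ≤ 2))

theorem isSquare_iff_exists {a : Fˣ} : IsSquare a ↔ ∃ b : Fˣ, a = b ^ 2 := by
  constructor
  · rintro ⟨b, rfl⟩; exact ⟨b, (sq b).symm⟩
  · rintro ⟨b, rfl⟩; exact ⟨b, sq b⟩

theorem index_normGroup_sup {S : QData} {φ : Fˣ →* S.G} (hS : IsQuat S)
    (hs : Function.Surjective φ)
    (hz : ∀ a b : Fˣ, S.q (φ a) (φ b) = S.zero ↔ NormFrom a b) (a b : Fˣ) :
    (V S (φ a) ⊔ V S (φ b)).index = (normGroup a ⊔ normGroup b).index := by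
  rw [← comap_V hS hz a, ← comap_V hS hz b, Subgroup.comap_sup_eq _ _ _ hs,
    Subgroup.index_comap_of_surjective _ hs]

theorem mul_eq_one_iff_of_sq {S : QData} (hS : IsQuat S) (a b : S.G) : a * b = 1 ↔ a = b := by
  constructor
  · intro h
    have := congrArg (a * ·) h
    simp only [← mul_assoc, mul_one] at this
    rw [hS.exp2 a, one_mul] at this
    exact this.symm
  · rintro rfl
    exact hS.exp2 a

theorem independent_of_phi {S : QData} (hS : IsQuat S) {φ : Fˣ →* S.G}
    (hk : ∀ a : Fˣ, φ a = 1 ↔ ∃ b : Fˣ, a = b ^ 2) {x y z : Fˣ} :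
    Independent (φ x) (φ y) (φ z) ↔ NormIndependent x y z := by
  have hk' : ∀ a : Fˣ, IsSquare a ↔ φ a = 1 := fun a => by rw [isSquare_iff_exists, hk]
  unfold Independent NormIndependent
  simp only [hk', map_mul, mul_eq_one_iff_of_sq hS, ne_eq]
  constructor
  · rintro ⟨h1, h2, h3, h4, h5, h6, h7⟩
    exact ⟨h1, h2, h3, h4, fun e => h5 e.symm, fun e => h6 e.symm, fun e => h7 e.symm⟩
  · rintro ⟨h1, h2, h3, h4, h5, h6, h7⟩
    exact ⟨h1, h2, h3, h4, fun e => h5 e.symm, fun e => h6 e.symm, fun e => h7 e.symm⟩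

theorem field_core (h2 : (2 : F) ≠ 0) (hfin : FinSq F)
    (h : ∀ (S : QData) (φ : Fˣ →* S.G), IsQuat S → Function.Surjective φ →
      (∀ a : Fˣ, φ a = 1 ↔ ∃ b : Fˣ, a = b ^ 2) →
      (∀ a b : Fˣ, S.q (φ a) (φ b) = S.zero ↔ NormFrom a b) → ∀ x y z : Fˣ,
      NormIndependent x y z → SmallG (sy (F := F)) x y z ∨ PairG S (φ x) (φ y) (φ z)) :
    ∃ S : QData, Elem S ∧ IsStructureOf F S := by
  obtain ⟨S, hS, hSfin, hSq⟩ := exists_structure h2 hfin
  refine ⟨S, ?_, hS⟩
  obtain ⟨φ, hs, hk, hn, h0, hq⟩ := id hS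
  have hz : ∀ a b : Fˣ, S.q (φ a) (φ b) = S.zero ↔ NormFrom a b := by
    intro a b
    rw [← qiso_one h2, ← h0, ← map_one φ]
    exact hq a b 1 1
  replace h := h S φ hSq hs hk hz
  have hinv : ∀ a b a' b' : Fˣ, φ a = φ a' → φ b = φ b' → bq h2 a b = bq h2 a' b' := by
    intro a b a' b' h1 h3
    rw [bq_eq_iff]
    exact qiso_of_phi h2 hk h1 h3
  choose r hr using hs
  let β : S.G → S.G → B2 F := fun g h => bq h2 (r g) (r h)
  have hβ : ∀ a b : Fˣ, β (φ a) (φ b) = bq h2 a b := fun a b => hinv _ _ _ _ (hr _) (hr _)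
  have hQs : ∀ a : Fˣ, Qs β (φ a) = Qs (bq h2) a := by
    intro a
    unfold Qs
    congr 1
    ext t
    constructor
    · rintro ⟨g, rfl⟩
      exact ⟨r g, by rw [← hβ, hr]⟩
    · rintro ⟨b, rfl⟩
      exact ⟨φ b, hβ a b⟩
  refine elem_of_planes S hSq hSfin B2_add_self β ?_ ?_ ?_
  · intro g h k
    show bq h2 (r g) (r (h * k)) = bq h2 (r g) (r h) + bq h2 (r g) (r k)
    rw [← bq_mul]
    apply hinv _ _ _ _ rfl
    rw [map_mul, hr, hr, hr]
  · intro g h k l
    show bq h2 (r g) (r h) = bq h2 (r k) (r l) ↔ _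
    rw [bq_eq_iff]
    have := hq (r g) (r h) (r k) (r l)
    rw [hr, hr, hr, hr] at this
    exact this.symm
  · intro x y z hi
    obtain ⟨a, rfl⟩ : ∃ a, φ a = x := ⟨r x, hr _⟩
    obtain ⟨b, rfl⟩ : ∃ a, φ a = y := ⟨r y, hr _⟩
    obtain ⟨c, rfl⟩ : ∃ a, φ a = z := ⟨r z, hr _⟩
    refine (h a b c ((independent_of_phi hSq hk).1 hi)).imp_left fun h => ?_
    rcases small_of_K2 h2 hfin a b c h with h | ⟨p, hp, h⟩
    · refine Or.inl ?_
      rintro p (rfl | rfl | rfl | rfl)
      · rw [hQs]; exact h _ (Or.inl rfl)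
      · rw [hQs]; exact h _ (Or.inr (Or.inl rfl))
      · rw [hQs]; exact h _ (Or.inr (Or.inr (Or.inl rfl)))
      · rw [← map_mul, ← map_mul, hQs]; exact h _ (Or.inr (Or.inr (Or.inr rfl)))
    · refine Or.inr ⟨φ p, ?_, ?_⟩
      · rcases hp with rfl | rfl | rfl | rfl
        · exact Or.inl rfl
        · exact Or.inr (Or.inl rfl)
        · exact Or.inr (Or.inr (Or.inl rfl))
        · exact Or.inr (Or.inr (Or.inr (by rw [map_mul, map_mul])))
      · rw [hQs, hQs, hQs, hQs]
        exact h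

/-- the plane condition for fields -/
theorem field_planes (h2 : (2 : F) ≠ 0) (hfin : FinSq F)
    (h : ∀ x y z : Fˣ, NormIndependent x y z → SmallG (sy (F := F)) x y z ∨ NormPair x y z) :
    ∃ S : QData, Elem S ∧ IsStructureOf F S := by
  refine field_core h2 hfin fun S φ hSq hs hk hz x y z hi => (h x y z hi).imp_right ?_
  rintro ⟨p, q, u, v, hperm, h⟩
  refine ⟨φ p, φ q, φ u, φ v, ?_, ?_⟩
  · have := hperm.map φ
    simpa only [List.map_cons, List.map_nil, map_mul] using this
  · simp only [index_normGroup_sup hSq hs hz]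
    exact h

/-- of two products with a common factor one has index at most two -/
theorem field_matching (h2 : (2 : F) ≠ 0) (hfin : FinSq F)
    (h : ∀ x y z : Fˣ, NormIndependent x y z →
      (normGroup x ⊔ normGroup y).index ≤ 2 ∨ (normGroup x ⊔ normGroup z).index ≤ 2) :
    ∃ S : QData, Elem S ∧ IsStructureOf F S := by
  refine field_core h2 hfin fun S φ hSq hs hk hz x y z hi => Or.inr ?_
  refine pairG_of_matching hSq ?_ ((independent_of_phi hSq hk).2 hi)
  intro a b c hi'
  obtain ⟨a, rfl⟩ := hs a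
  obtain ⟨b, rfl⟩ := hs b
  obtain ⟨c, rfl⟩ := hs c
  rw [index_normGroup_sup hSq hs hz, index_normGroup_sup hSq hs hz]
  exact h a b c ((independent_of_phi hSq hk).1 hi')

end

end Pool.Agent.X269.ET
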