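import Pool.Agent.Results.MP_d26ff6_al.SymbolExtension

/-! Retracts of quaternionic structures: definitions and the proof by extension of symbols. -/

set_option autoImplicit false

namespace Pool.Agent.X269.ET

open Pool.Agent.H315R3.ETC
open Pool.Agent.Results.MP_d26ff6_al.SymbolExtension

/-- `T` is a retract of the structures `S 1, ..., S n`: there are homomorphisms
`i j : G_T → G_(S j)` and `N j : G_(S j) → G_T` with `∏ N j (i j a) = a`, such that `q(a,b) = 0`
implies `q(i j a, i j b) = 0`, and `q(i j a, y) = 0` implies `q(a, N j y) = 0` -/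
def IsRetract (T : QData) {n : ℕ} (S : Fin n → QData) : Prop :=
  ∃ (i : ∀ j, T.G →* (S j).G) (N : ∀ j, (S j).G →* T.G), (∀ a, ∏ j, N j (i j a) = a) ∧
    (∀ j a b, T.q a b = T.zero → (S j).q (i j a) (i j b) = (S j).zero) ∧
    ∀ j a y, (S j).q (i j a) y = (S j).zero → T.q a (N j y) = T.zero

theorem q_one {S : QData} (h : IsQuat S) (y : S.G) : S.q 1 y = S.zero := by
  rw [h.qs2]
  have := (h.qs3 y 1 1).1 rfl
  rwa [mul_one] at this

/-- symbols extend from subgroups of a retract -/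
theorem symbols_of_retract {T : QData} {n : ℕ} {S : Fin n → QData}
    (hSq : ∀ j, IsQuat (S j)) (h : IsRetract T S) (hS : ∀ j, SymbolsExtend (S j)) :
    SymbolsExtend T := by
  classical
  obtain ⟨i, N, hNi, hq, hV⟩ := h
  intro W χ ⟨c1, c2, c3⟩
  have h02 : ∀ u v : ZMod 2, u + v = 0 → u = v := by decide
  have c1' : ∀ c, χ 1 c = 0 := by
    intro c
    have := c1 1 W.one_mem 1 W.one_mem c
    rw [mul_one] at this
    exact left_eq_add.1 this
  have c2' : ∀ w ∈ W, χ w 1 = 0 := by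
    intro w hw
    have := c2 w hw 1 1
    rw [mul_one] at this
    exact left_eq_add.1 this
  -- the symbol on the image of `W`
  let χj : ∀ j, (S j).G → (S j).G → ZMod 2 := fun j y z =>
    if hy : ∃ w ∈ W, i j w = y then χ hy.choose (N j z) else 0
  have hχj : ∀ j, ∀ w ∈ W, ∀ z, χj j (i j w) z = χ w (N j z) := by
    intro j w hw z
    have hy : ∃ w' ∈ W, i j w' = i j w := ⟨w, hw, rfl⟩
    have e1 : χj j (i j w) z = χ hy.choose (N j z) := dif_pos hy
    obtain ⟨h1, h2⟩ := hy.choose_spec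
    rw [e1]
    apply h02
    rw [← c1 _ h1 _ hw]
    refine c3 _ (W.mul_mem h1 hw) _ (hV j _ _ ?_)
    rw [map_mul, h2, (hSq j).exp2]
    exact q_one (hSq j) z
  have hext : ∀ j, ∃ χ' : (S j).G → (S j).G → ZMod 2, IsSymbol (S j) ⊤ χ' ∧
      ∀ w ∈ W, ∀ b, χ' (i j w) b = χ w (N j b) := by
    intro j
    have hsy : IsSymbol (S j) (W.map (i j)) (χj j) := by
      refine ⟨?_, ?_, ?_⟩
      · rintro _ ⟨w, hw, rfl⟩ _ ⟨w', hw', rfl⟩ z
        rw [← map_mul, hχj j _ (W.mul_mem hw hw'), hχj j _ hw, hχj j _ hw', c1 _ hw _ hw']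
      · rintro _ ⟨w, hw, rfl⟩ z z'
        rw [hχj j _ hw, hχj j _ hw, hχj j _ hw, map_mul, c2 _ hw]
      · rintro _ ⟨w, hw, rfl⟩ z hz
        rw [hχj j _ hw]
        exact c3 _ hw _ (hV j _ _ hz)
    obtain ⟨χ', h1, h2⟩ := hS j _ _ hsy
    exact ⟨χ', h1, fun w hw b => (h2 (i j w) ⟨w, hw, rfl⟩ b).trans (hχj j w hw b)⟩
  choose χ' hχ1 hχ2 using hext
  refine ⟨fun a b => ∑ j, χ' j (i j a) (i j b), ⟨?_, ?_, ?_⟩, ?_⟩
  · intro a _ b _ c
    simp only [map_mul, ← Finset.sum_add_distrib]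
    exact Finset.sum_congr rfl fun j _ => (hχ1 j).1 _ trivial _ trivial _
  · intro a _ b c
    simp only [map_mul, ← Finset.sum_add_distrib]
    exact Finset.sum_congr rfl fun j _ => (hχ1 j).2.1 _ trivial _ _
  · intro a _ b hab
    exact Finset.sum_eq_zero fun j _ => (hχ1 j).2.2 _ trivial _ (hq j a b hab)
  · intro w hw b
    have e1 : ∀ s : Finset (Fin n), ∑ j ∈ s, χ w (N j (i j b)) = χ w (∏ j ∈ s, N j (i j b)) := by
      intro s
      induction s using Finset.induction_on with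
      | empty => rw [Finset.sum_empty, Finset.prod_empty, c2' w hw]
      | insert j s hj ih => rw [Finset.sum_insert hj, Finset.prod_insert hj, ih, c2 w hw]
    show ∑ j, χ' j (i j w) (i j b) = χ w b
    rw [Finset.sum_congr rfl fun j _ => hχ2 j w hw (i j b), e1, hNi]

/-- the structure on the image of an endomorphism `N` of `G` -/
def image (S : QData) (N : S.G →* S.G) : QData :=
  ⟨N.range, S.Q, ⟨N S.neg, S.neg, rfl⟩, fun a b => S.q a b, S.zero⟩

/-- `N(N(x)) = N(x)`, and `N(V(h)) ⊆ V(h)` for all `h` in the image of `N`, where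
`V(h) = {x : q(h,x) = 0}` -/
def IsProjection (S : QData) (N : S.G →* S.G) : Prop :=
  (∀ x, N (N x) = N x) ∧ ∀ x y, S.q (N x) y = S.zero → S.q (N x) (N y) = S.zero

theorem isQuat_image {S : QData} (hS : IsQuat S) {N : S.G →* S.G} (hN : IsProjection S N) :
    IsQuat (image S N) := by
  obtain ⟨hNN, hNV⟩ := hN
  have hfix : ∀ a : N.range, N (a : S.G) = a := by
    rintro ⟨_, x, rfl⟩
    exact hNN x
  have hV : ∀ (a : N.range) (y : S.G), S.q a y = S.zero → S.q a (N y) = S.zero := by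
    rintro ⟨_, x, rfl⟩ y h
    exact hNV x y h
  refine ⟨fun (a : N.range) => Subtype.ext (hS.exp2 _), fun (a : N.range) => ?_,
    fun a b => hS.qs2 _ _, fun a b c => hS.qs3 _ _ _, fun (a b c d : N.range) h => ?_⟩
  · show S.q (a : S.G) (N S.neg * (a : S.G)) = S.zero
    have h1 := hV a _ (hS.qs1 a)
    rwa [map_mul, hfix] at h1
  · obtain ⟨x, h1, h2⟩ := hS.qs4 (a : S.G) b c d h
    refine ⟨⟨N x, x, rfl⟩, ?_, ?_⟩
    · show S.q (a : S.G) b = S.q a (N x)
      have h3 := hV a _ ((hS.qs3 _ _ _).1 h1)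
      rw [map_mul, hfix] at h3
      exact (hS.qs3 _ _ _).2 h3
    · have h3 := hV c _ ((hS.qs3 _ _ _).1 h2)
      rw [map_mul, hfix] at h3
      exact (hS.qs3 _ _ _).2 h3

theorem retract_image {S : QData} {N : S.G →* S.G} (hN : IsProjection S N) :
    IsRetract (image S N) (fun _ : Fin 1 => S) := by
  obtain ⟨hNN, hNV⟩ := hN
  refine ⟨fun _ => N.range.subtype, fun _ => N.rangeRestrict, ?_, fun _ a b h => h, ?_⟩
  · rintro ⟨_, x, rfl⟩
    rw [Fin.prod_univ_one]
    exact Subtype.ext (hNN x)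
  · rintro _ ⟨_, x, rfl⟩ y h
    exact hNV x y h

end Pool.Agent.X269.ET
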