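import Pool.Agent.X269.ET.Norm
import Pool.Agent.X269.ET.Retract

/-! Finiteness: structures of elementary type are finite, and so are their retracts. -/

set_option autoImplicit false

namespace Pool.Agent.X269.ET

open Pool.Agent.H315R3.ETC Pool.Agent.TH188.ET

theorem elem_finite {S : QData} (h : Elem S) : Finite S.G := by
  induction h with
  | l0 => exact inferInstanceAs (Finite Unit)
  | l10 => exact inferInstanceAs (Finite (Multiplicative (ZMod 2)))
  | l11 => exact inferInstanceAs (Finite (Multiplicative (ZMod 2)))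
  | l1 => exact inferInstanceAs (Finite (Multiplicative (ZMod 2)))
  | loc S h => exact h.2.1
  | prod S T _ _ h1 h2 => exact inferInstanceAs (Finite (S.G × T.G))
  | ext S _ h => exact inferInstanceAs (Finite (S.G × Multiplicative (ZMod 2)))
  | iso S T _ e h =>
    obtain ⟨φ, -⟩ := e
    exact Finite.of_equiv _ φ.toEquiv

theorem finite_of_retract {T : QData} {n : ℕ} {S : Fin n → QData} (h : IsRetract T S)
    (hS : ∀ j, Finite (S j).G) : Finite T.G := by
  obtain ⟨i, N, hNi, -, -⟩ := h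
  refine Finite.of_injective (fun a : T.G => fun j => i j a) fun a b hab => ?_
  rw [← hNi a, ← hNi b]
  exact Finset.prod_congr rfl fun j _ => congrArg (N j) (congrFun hab j)

section field
variable {F : Type*} [Field F] {K : Type*} [Field K] [Algebra F K]

theorem finSq_of_structure {S : QData} (hS : IsStructureOf F S) (hf : Finite S.G) : FinSq F := by
  obtain ⟨φ, -, hk, -⟩ := hS
  have hker : φ.ker = (powMonoidHom 2 : Fˣ →* Fˣ).range := by
    ext a
    rw [MonoidHom.mem_ker, hk, MonoidHom.mem_range]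
    exact ⟨fun ⟨b, hb⟩ => ⟨b, hb.symm⟩, fun ⟨b, hb⟩ => ⟨b, hb.symm⟩⟩
  unfold FinSq
  rw [← hker]
  exact Finite.of_injective _ (QuotientGroup.kerLift_injective φ)

theorem finSq_of_inj (h : ∀ b : Fˣ, (∃ s : Kˣ, inc K b = s ^ 2) → ∃ t : Fˣ, b = t ^ 2)
    (hK : FinSq K) : FinSq F := by
  let f : (Fˣ ⧸ (powMonoidHom 2 : Fˣ →* Fˣ).range) →* (Kˣ ⧸ (powMonoidHom 2 : Kˣ →* Kˣ).range) :=
    QuotientGroup.map _ _ (inc K) (by
      rintro _ ⟨b, rfl⟩
      exact ⟨inc K b, (map_pow (inc K) b 2).symm⟩)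
  have hf : Function.Injective f := by
    rw [injective_iff_map_eq_one]
    intro x
    obtain ⟨b, rfl⟩ := QuotientGroup.mk_surjective x
    intro hb
    have h1 : ((inc K b : Kˣ) : Kˣ ⧸ (powMonoidHom 2 : Kˣ →* Kˣ).range) = 1 := hb
    rw [QuotientGroup.eq_one_iff] at h1
    obtain ⟨s, hs⟩ := h1
    rw [QuotientGroup.eq_one_iff]
    obtain ⟨t, ht⟩ := h b ⟨s, hs.symm⟩
    exact ⟨t, ht.symm⟩
  have : Finite (Kˣ ⧸ (powMonoidHom 2 : Kˣ →* Kˣ).range) := hK
  exact Finite.of_injective f hf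

theorem sq_of_transfer {N : Kˣ →* Fˣ} (hN : IsTransfer N) (b : Fˣ)
    (h : ∃ s : Kˣ, inc K b = s ^ 2) : ∃ t : Fˣ, b = t ^ 2 := by
  obtain ⟨s, hs⟩ := h
  obtain ⟨t, ht⟩ := hN.1 b
  refine ⟨N s * t⁻¹, ?_⟩
  rw [hs, map_pow] at ht
  rw [mul_pow, ht, mul_assoc, ← mul_pow, mul_inv_cancel, one_pow, mul_one]

theorem sq_of_odd (hK : IsOddExtension F K) (b : Fˣ) (h : ∃ s : Kˣ, inc K b = s ^ 2) :
    ∃ t : Fˣ, b = t ^ 2 := by
  obtain ⟨halg, hodd⟩ := hK
  obtain ⟨s, hs⟩ := h
  let E : IntermediateField F K := IntermediateField.adjoin F {(s : K)}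
  have hsE : (s : K) ∈ E := IntermediateField.subset_adjoin F _ rfl
  have hfin : FiniteDimensional F E :=
    IntermediateField.adjoin.finiteDimensional (halg.isAlgebraic (s : K)).isIntegral
  refine sq_of_transfer (K := E) (transfer_of_odd (hodd E hfin)) b
    ⟨Units.mk0 ⟨s, hsE⟩ fun h0 => s.ne_zero (congrArg Subtype.val h0), ?_⟩
  apply Units.ext
  apply Subtype.ext
  have h1 := congrArg Units.val hs
  exact h1

end field

end Pool.Agent.X269.ET
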