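import Pool.Agent.TH188.ET.Conv

/-! Norms of values of `x² - a y²` in finite extensions, and descent of relations between symbols. -/

set_option autoImplicit false

namespace Pool.Agent.X269.ET

open Pool.Agent.TH188.ET
open scoped TensorProduct

section det
variable {F : Type*} [Field F]

open QuadraticAlgebra in
/-- determinants of `X² - a Y²` for commuting matrices -/
theorem det_form (a : F) {n : Type*} [Fintype n] [DecidableEq n] (X Y : Matrix n n F)
    (h : X * Y = Y * X) : ∃ p q : F, (X * X - a • (Y * Y)).det = p ^ 2 - a * q ^ 2 := by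
  have hst : ∀ r : F, starRingEnd (QuadraticAlgebra F a 0)
      (algebraMap F (QuadraticAlgebra F a 0) r) = algebraMap F (QuadraticAlgebra F a 0) r := by
    intro r
    show star (algebraMap F (QuadraticAlgebra F a 0) r) = _
    ext
    · simp [QuadraticAlgebra.algebraMap_eq]
    · simp [QuadraticAlgebra.algebraMap_eq]
  have hw : starRingEnd (QuadraticAlgebra F a 0) (⟨0, 1⟩ : QuadraticAlgebra F a 0) = -⟨0, 1⟩ := by
    show star (⟨0, 1⟩ : QuadraticAlgebra F a 0) = -⟨0, 1⟩
    ext
    · simp
    · simp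
  have hww : (⟨0, 1⟩ : QuadraticAlgebra F a 0) * ⟨0, 1⟩ =
      algebraMap F (QuadraticAlgebra F a 0) a := by
    ext
    · simp [QuadraticAlgebra.algebraMap_eq]
    · simp [QuadraticAlgebra.algebraMap_eq]
  have hre : ∀ z : QuadraticAlgebra F a 0,
      (z * starRingEnd (QuadraticAlgebra F a 0) z).re = z.re ^ 2 - a * z.im ^ 2 := by
    intro z
    show (z * star z).re = _
    simp
    ring
  have hfre : ∀ r : F, (algebraMap F (QuadraticAlgebra F a 0) r).re = r := by
    intro r
    simp [QuadraticAlgebra.algebraMap_eq]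
  generalize algebraMap F (QuadraticAlgebra F a 0) = f at hst hww hfre
  generalize starRingEnd (QuadraticAlgebra F a 0) = st at hst hw hre
  generalize (⟨0, 1⟩ : QuadraticAlgebra F a 0) = w at hw hww
  have hXY : X.map f * Y.map f = Y.map f * X.map f := by
    rw [← Matrix.map_mul, h, Matrix.map_mul]
  set Z : Matrix n n (QuadraticAlgebra F a 0) := X.map f + w • Y.map f with hZdef
  have hZ : Z.map st = X.map f - w • Y.map f := by
    refine Matrix.ext fun i j => ?_
    show st (f (X i j) + w * f (Y i j)) = f (X i j) - w * f (Y i j)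
    rw [map_add, map_mul, hst, hst, hw]
    ring
  have e1 : (X * X - a • (Y * Y)).map f =
      X.map f * X.map f - (f a) • (Y.map f * Y.map f) := by
    rw [← Matrix.map_mul, ← Matrix.map_mul]
    refine Matrix.ext fun i j => ?_
    show f (((X * X) i j) - a * ((Y * Y) i j)) = f ((X * X) i j) - f a * f ((Y * Y) i j)
    rw [map_sub, map_mul]
  have hprod : Z * Z.map st = (X * X - a • (Y * Y)).map f := by
    rw [e1, hZ, ← hww, hZdef]
    rw [add_mul, mul_sub, mul_sub, Matrix.mul_smul, Matrix.smul_mul, Matrix.smul_mul,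
      Matrix.mul_smul, hXY, smul_smul]
    abel
  have hdet : f (X * X - a • (Y * Y)).det = Z.det * st Z.det := by
    rw [RingHom.map_det, RingHom.map_det, ← Matrix.det_mul]
    exact congrArg Matrix.det hprod.symm
  refine ⟨Z.det.re, Z.det.im, ?_⟩
  have h1 := congrArg QuadraticAlgebra.re hdet
  rwa [hre, hfre] at h1

theorem norm_form {K : Type*} [Field K] [Algebra F K] [FiniteDimensional F K] (a : F) (x y : K) :
    ∃ p q : F, Algebra.norm F (x ^ 2 - algebraMap F K a * y ^ 2) = p ^ 2 - a * q ^ 2 := by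
  classical
  let b := Module.finBasis F K
  have h1 : Algebra.leftMulMatrix b x * Algebra.leftMulMatrix b y =
      Algebra.leftMulMatrix b y * Algebra.leftMulMatrix b x := by
    rw [← map_mul, ← map_mul, mul_comm]
  obtain ⟨p, q, h⟩ := det_form a _ _ h1
  refine ⟨p, q, ?_⟩
  rw [← h, Algebra.norm_eq_matrix_det b]
  congr 1
  rw [← map_mul, ← map_mul, ← Algebra.smul_def, map_sub, map_smul, pow_two, pow_two]

end det

section K2
variable {F : Type*} [Field F] {K : Type*} [Field K]

/-- the image of a relation between symbols -/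
theorem relation_map (φ : F →+* K) {n : ℕ} (a b : Fin n → Fˣ) (h : ∑ i, sy (a i) (b i) = 0) :
    ∑ i, sy (Units.map (φ : F →* K) (a i)) (Units.map (φ : F →* K) (b i)) = 0 := by
  let u : Additive Fˣ →+ Additive Kˣ := MonoidHom.toAdditive (Units.map (φ : F →* K))
  let g : (Additive Fˣ ⊗[ℤ] Additive Fˣ) →+ (Additive Kˣ ⊗[ℤ] Additive Kˣ) :=
    (TensorProduct.map u.toIntLinearMap u.toIntLinearMap).toAddMonoidHom
  have hg : ∀ x y : Fˣ, g (Additive.ofMul x ⊗ₜ[ℤ] Additive.ofMul y) =
      Additive.ofMul (Units.map (φ : F →* K) x) ⊗ₜ[ℤ] Additive.ofMul (Units.map (φ : F →* K) y) :=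
    fun x y => rfl
  have hle : steinberg F ≤ (steinberg K).comap g := by
    unfold steinberg
    rw [AddSubgroup.closure_le]
    rintro t (⟨x, y, hxy, rfl⟩ | ⟨s, rfl⟩)
    · refine AddSubgroup.subset_closure (Or.inl ⟨Units.map (φ : F →* K) x,
        Units.map (φ : F →* K) y, ?_, hg x y⟩)
      rw [Units.coe_map, Units.coe_map]
      show φ x + φ y = 1
      rw [← map_add, hxy, map_one]
    · refine AddSubgroup.subset_closure (Or.inr ⟨g s, map_add g s s⟩)
  let m : K2 F →+ K2 K := QuotientAddGroup.map (steinberg F) (steinberg K) g hle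
  have hm : ∀ x y : Fˣ, m (sy x y) =
      sy (Units.map (φ : F →* K) x) (Units.map (φ : F →* K) y) := fun x y => rfl
  have h1 := congrArg m h
  rw [map_sum, map_zero] at h1
  exact h1

end K2

section descent
variable {F : Type*} [Field F] {K : Type*} [Field K] [Algebra F K]

/-- the unit of `K` given by a unit of `F` -/
abbrev inc (K : Type*) [Field K] [Algebra F K] : Fˣ →* Kˣ :=
  Units.map (algebraMap F K : F →* K)

/-- `N : K* → F*` is a homomorphism with `N(b) ∈ b F*²` for `b ∈ F*`, and for all `a ∈ F*` it maps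
the values of `x² - a y²` over `K` to values of this form over `F` -/
def IsTransfer (N : Kˣ →* Fˣ) : Prop :=
  (∀ b : Fˣ, ∃ t : Fˣ, N (inc K b) = b * t ^ 2) ∧
    ∀ (a : Fˣ) (c : Kˣ), NormFrom (inc K a) c → NormFrom a (N c)

/-- the data of relations from slots descend along a transfer -/
theorem data_descend {N : Kˣ →* Fˣ} (hN : IsTransfer N) {n : ℕ} (a b : Fin n → Fˣ)
    (h : ∃ c : Finset (Fin n) → Kˣ, (∀ I, NormFrom (∏ i ∈ I, inc K (a i)) (c I)) ∧
      ∀ i, ∃ s : Kˣ, inc K (b i) = s ^ 2 * ∏ I with i ∈ I, c I) :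
    ∃ c : Finset (Fin n) → Fˣ, (∀ I, NormFrom (∏ i ∈ I, a i) (c I)) ∧
      ∀ i, ∃ s : Fˣ, b i = s ^ 2 * ∏ I with i ∈ I, c I := by
  obtain ⟨c, hc, hb⟩ := h
  refine ⟨fun I => N (c I), fun I => hN.2 _ _ ?_, fun i => ?_⟩
  · rw [map_prod]
    exact hc I
  · obtain ⟨s, hs⟩ := hb i
    obtain ⟨t, ht⟩ := hN.1 (b i)
    refine ⟨N s * t⁻¹, ?_⟩
    have h1 := congrArg N hs
    rw [ht, map_mul, map_pow, map_prod] at h1
    have h2 : b i = b i * t ^ 2 * (t⁻¹) ^ 2 := by
      rw [mul_assoc, ← mul_pow, mul_inv_cancel, one_pow, mul_one]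
    rw [h2, h1, mul_pow, mul_right_comm]

theorem relations_descend {N : Kˣ →* Fˣ} (hN : IsTransfer N) (h : RelationsFromSlots K) :
    RelationsFromSlots F := by
  intro n a b hab
  exact data_descend hN a b (h n (fun i => inc K (a i)) (fun i => inc K (b i))
    (relation_map (algebraMap F K) a b hab))

/-- the norm is a transfer for finite extensions of odd degree -/
theorem transfer_of_odd [FiniteDimensional F K] (hodd : Odd (Module.finrank F K)) :
    IsTransfer (Units.map (Algebra.norm F : K →* F)) := by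
  obtain ⟨m, hm⟩ := hodd
  constructor
  · intro b
    refine ⟨b ^ m, ?_⟩
    ext
    rw [Units.coe_map, Units.coe_map]
    show Algebra.norm F (algebraMap F K b) = _
    rw [Algebra.norm_algebraMap, hm, Units.val_mul, Units.val_pow_eq_pow_val,
      Units.val_pow_eq_pow_val]
    ring
  · rintro a c ⟨x, y, h⟩
    obtain ⟨p, q, hpq⟩ := norm_form (a : F) x y
    refine ⟨p, q, ?_⟩
    rw [Units.coe_map]
    show Algebra.norm F (c : K) = _
    rw [← hpq, h]
    rfl

/-- every finite subextension has odd degree -/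
def IsOddExtension (F K : Type*) [Field F] [Field K] [Algebra F K] : Prop :=
  Algebra.IsAlgebraic F K ∧
    ∀ E : IntermediateField F K, FiniteDimensional F E → Odd (Module.finrank F E)

theorem relations_of_odd (hK : IsOddExtension F K) (h : RelationsFromSlots K) :
    RelationsFromSlots F := by
  classical
  obtain ⟨halg, hodd⟩ := hK
  intro n a b hab
  obtain ⟨c, hc, hb⟩ := h n (fun i => inc K (a i)) (fun i => inc K (b i))
    (relation_map (algebraMap F K) a b hab)
  choose x y hxy using hc
  choose s hs using hb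
  let T : Set K := (Set.range fun I => (c I : K)) ∪ Set.range x ∪ Set.range y ∪
    Set.range fun i => (s i : K)
  have hT : T.Finite := (((Set.finite_range _).union (Set.finite_range _)).union
    (Set.finite_range _)).union (Set.finite_range _)
  let E : IntermediateField F K := IntermediateField.adjoin F T
  have hTE : T ⊆ (E : Set K) := IntermediateField.subset_adjoin F T
  have hcE : ∀ I, (c I : K) ∈ E := fun I => hTE (Or.inl (Or.inl (Or.inl ⟨I, rfl⟩)))
  have hxE : ∀ I, x I ∈ E := fun I => hTE (Or.inl (Or.inl (Or.inr ⟨I, rfl⟩)))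
  have hyE : ∀ I, y I ∈ E := fun I => hTE (Or.inl (Or.inr ⟨I, rfl⟩))
  have hsE : ∀ i, (s i : K) ∈ E := fun i => hTE (Or.inr ⟨i, rfl⟩)
  have hfin : FiniteDimensional F E := by
    have := hT.to_subtype
    exact IntermediateField.finiteDimensional_adjoin fun z _ => halg.isAlgebraic z |>.isIntegral
  have hE := hodd E hfin
  -- the data in `E`
  let c' : Finset (Fin n) → Eˣ := fun I => Units.mk0 ⟨c I, hcE I⟩ fun h0 =>
    (c I).ne_zero (congrArg Subtype.val h0)
  let s' : Fin n → Eˣ := fun i => Units.mk0 ⟨s i, hsE i⟩ fun h0 =>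
    (s i).ne_zero (congrArg Subtype.val h0)
  refine data_descend (K := E) (transfer_of_odd hE) a b ⟨c', fun I => ?_, fun i => ?_⟩
  · refine ⟨⟨x I, hxE I⟩, ⟨y I, hyE I⟩, ?_⟩
    apply Subtype.ext
    have h1 := hxy I
    show (c I : K) = x I ^ 2 - _ * y I ^ 2
    rw [h1]
    congr 2
    rw [← map_prod, ← map_prod]
    rfl
  · refine ⟨s' i, ?_⟩
    apply Units.ext
    apply Subtype.ext
    have h1 := congrArg Units.val (hs i)
    rw [Units.val_mul, Units.val_pow_eq_pow_val, Units.coe_prod] at h1
    have h2 : (((s' i) ^ 2 * ∏ I with i ∈ I, c' I : Eˣ) : E) =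
        (⟨s i, hsE i⟩ : E) ^ 2 * ∏ I with i ∈ I, (⟨c I, hcE I⟩ : E) := by
      rw [Units.val_mul, Units.val_pow_eq_pow_val, Units.coe_prod]
      rfl
    rw [h2]
    have h3 : (((⟨s i, hsE i⟩ : E) ^ 2 * ∏ I with i ∈ I, (⟨c I, hcE I⟩ : E) : E) : K) =
        (s i : K) ^ 2 * ∏ I with i ∈ I, (c I : K) := by
      push_cast
      rfl
    rw [h3, ← h1]
    rfl

end descent

end Pool.Agent.X269.ET
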