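import Pool.Agent.TH188.ET.GrpVal
import Pool.Agent.X269.ET.Comp

/-! Linked families of forms for which the values at two of the points of each plane have at most
one common nonzero value. -/

set_option autoImplicit false

namespace Pool.Agent.X269.ET

open Pool.Agent.H315R3.ETC Pool.Agent.W622.ETG Module Pool.Agent.TH188.ETP Pool.Agent.TH188.ETV
open Pool.Agent.TH188.ET (exists_char exists_factor)
open Pool.Agent.TH188.ET8 (QD_eq)

section fam
variable {W : Type} [AddCommGroup W] [Module (ZMod 2) W] {e : W}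

/-- at most one common nonzero value -/
def Thin (A : Fam W) (p q : W) : Prop :=
  ∀ f g : Dl W, In A p f → In A q f → In A p g → In A q g → f = 0 ∨ g = 0 ∨ f = g

/-- the plane `x, y, z, x + y + z` has two complementary thin pairs, or three pairs of a triangle -/
def PairAt (A : Fam W) (x y z : W) : Prop :=
  ∃ p q r s : W, [p, q, r, s].Perm [x, y, z, x + y + z] ∧
    ((Thin A p q ∧ Thin A r s) ∨ (Thin A p q ∧ Thin A p r ∧ Thin A q r))

/-- a degenerate plane, a small one, or one with thin pairs -/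
def Cond (A : Fam W) (x y z : W) : Prop :=
  (x = 0 ∨ y = 0 ∨ x = y ∨ z = 0 ∨ x = z ∨ y = z ∨ x + y + z = 0) ∨ SmallAt A x y z ∨
    PairAt A x y z

theorem Thin.mono {A B : Fam W} (hBA : B ≤ A) {p q : W} (h : Thin A p q) : Thin B p q := by
  have hI : ∀ (p : W) (f : Dl W), In B p f → In A p f := fun p f ⟨ω, hω, h⟩ => ⟨ω, hBA hω, h⟩
  intro f g h1 h2 h3 h4
  exact h f g (hI _ _ h1) (hI _ _ h2) (hI _ _ h3) (hI _ _ h4)

theorem Cond.mono {A B : Fam W} (hBA : B ≤ A) {x y z : W} (h : Cond A x y z) : Cond B x y z := by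
  rcases h with h | h | ⟨p, q, r, s, hp, h⟩
  · exact Or.inl h
  · exact Or.inr (Or.inl (h.mono hBA))
  · refine Or.inr (Or.inr ⟨p, q, r, s, hp, ?_⟩)
    rcases h with h | h
    · exact Or.inl ⟨h.1.mono hBA, h.2.mono hBA⟩
    · exact Or.inr ⟨h.1.mono hBA, h.2.1.mono hBA, h.2.2.mono hBA⟩

theorem wadd (v : W) : v + v = 0 := by
  rw [← two_nsmul, ← Nat.cast_smul_eq_nsmul (ZMod 2)]
  have : ((2 : ℕ) : ZMod 2) = 0 := rfl
  rw [this, zero_smul]

/-- a member vanishing at a thin pair, with value `f` at the complementary pair -/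
theorem comp_pair {A : Fam W} (hL : Linked A) {a b c d : W} (hsum : a + b + c = d) {f : Dl W}
    (hf0 : f ≠ 0) (hfa : In A a f) (hfb : In A b f) (hfc : In A c f) (hfd : In A d f)
    (hno : ∀ ω ∈ A, ω a = f → ω b = f → ω c = f → False) (ht : Thin A a b) :
    ∃ ω ∈ A, ω a = 0 ∧ ω b = 0 ∧ ω c = f ∧ ω d = f := by
  obtain ⟨ω, hω, h1, h2⟩ := pairL hL c d f hfc hfd
  have e2 : ω a = ω b := by
    have h := four hsum ω
    rw [h2, h1] at h
    have h5 : f + f = ω a + ω b + f + f := by rw [← h]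
    rw [wadd, add_assoc, wadd, add_zero] at h5
    have h6 : ω a + ω b + ω b = ω b := by rw [← h5, zero_add]
    rwa [add_assoc, wadd, add_zero] at h6
  rcases ht f (ω a) hfa hfb ⟨ω, hω, rfl⟩ ⟨ω, hω, e2.symm⟩ with h | h | h
  · exact absurd h hf0
  · exact ⟨ω, hω, h, by rw [← e2, h], h1, h2⟩
  · exact (hno ω hω h.symm (by rw [← e2, h]) h1).elim

theorem plane_thin {A : Fam W} (hL : Linked A) {a b c d : W} (hsum : a + b + c = d)
    (h : (Thin A a b ∧ Thin A c d) ∨ (Thin A a b ∧ Thin A a c ∧ Thin A b c)) {f : Dl W}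
    (hfa : In A a f) (hfb : In A b f) (hfc : In A c f) (hfd : In A d f) :
    ∃ ω ∈ A, ω a = f ∧ ω b = f ∧ ω c = f ∧ ω d = f := by
  by_cases hf0 : f = 0
  · exact ⟨0, A.zero_mem, by simp [hf0]⟩
  by_contra hcon
  have hno : ∀ ω ∈ A, ω a = f → ω b = f → ω c = f → False := by
    intro ω hω h1 h2 h3
    refine hcon ⟨ω, hω, h1, h2, h3, ?_⟩
    rw [four hsum, h1, h2, h3, wadd, zero_add]
  rcases h with ⟨t1, t2⟩ | ⟨t1, t2, t3⟩
  · obtain ⟨ω, hω, h1, h2, h3, h4⟩ := comp_pair hL hsum hf0 hfa hfb hfc hfd hno t1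
    have hs2 : c + d + a = b := by
      rw [← hsum]
      have : c + (a + b + c) + a = (c + c) + (a + a) + b := by abel
      rw [this, wadd, wadd, zero_add, zero_add]
    obtain ⟨η, hη, g1, g2, g3, g4⟩ := comp_pair hL hs2 hf0 hfc hfd hfa hfb (by
      intro ω hω h1 h2 h3
      refine hno ω hω h3 ?_ h1
      rw [four hs2, h1, h2, h3, wadd, zero_add]) t2
    refine hno (ω + η) (A.add_mem hω hη) ?_ ?_ ?_
    · rw [LinearMap.add_apply, h1, g3, zero_add]
    · rw [LinearMap.add_apply, h2, g4, zero_add]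
    · rw [LinearMap.add_apply, h3, g1, add_zero]
  · obtain ⟨ω, hω, h1, h2, h3, h4⟩ := comp_pair hL hsum hf0 hfa hfb hfc hfd hno t1
    have hs2 : a + c + b = d := by rw [← hsum]; abel
    obtain ⟨η, hη, g1, g2, g3, g4⟩ := comp_pair hL hs2 hf0 hfa hfc hfb hfd
      (fun ω hω h1 h2 h3 => hno ω hω h1 h3 h2) t2
    have hs3 : b + c + a = d := by rw [← hsum]; abel
    obtain ⟨θ, hθ, k1, k2, k3, k4⟩ := comp_pair hL hs3 hf0 hfb hfc hfa hfd
      (fun ω hω h1 h2 h3 => hno ω hω h3 h1 h2) t3
    refine hno (ω + η + θ) (A.add_mem (A.add_mem hω hη) hθ) ?_ ?_ ?_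
    · rw [LinearMap.add_apply, LinearMap.add_apply, h1, g1, k3, zero_add, zero_add]
    · rw [LinearMap.add_apply, LinearMap.add_apply, h2, g3, k1, zero_add, add_zero]
    · rw [LinearMap.add_apply, LinearMap.add_apply, h3, g2, k2, add_zero, add_zero]

theorem plane_of_pair {A : Fam W} (hL : Linked A) {x y z : W} (h : PairAt A x y z) :
    PlaneAt A x y z := by
  obtain ⟨p, q, r, s, hperm, h⟩ := h
  intro f fx fy fz fw
  have hall : ∀ t ∈ [x, y, z, x + y + z], In A t f := by
    intro t ht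
    simp only [List.mem_cons, List.not_mem_nil, or_false] at ht
    rcases ht with rfl | rfl | rfl | rfl
    · exact fx
    · exact fy
    · exact fz
    · exact fw
  have hp : ∀ t ∈ [p, q, r, s], In A t f := fun t ht => hall t (hperm.mem_iff.1 ht)
  have hsum : p + q + r = s := by
    have h1 := hperm.sum_eq
    simp only [List.sum_cons, List.sum_nil, add_zero] at h1
    have h2 : x + (y + (z + (x + y + z))) = (x + x) + (y + y) + (z + z) := by abel
    rw [h2, wadd x, wadd y, wadd z, add_zero, add_zero] at h1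
    have h3 : p + q + r + s = 0 := by
      have : p + q + r + s = p + (q + (r + s)) := by abel
      rw [this, h1]
    have h4 : p + q + r + s + s = s := by rw [h3, zero_add]
    rwa [add_assoc, wadd, add_zero] at h4
  obtain ⟨ω, hω, h1, h2, h3, h4⟩ := plane_thin hL hsum h (hp p (by simp)) (hp q (by simp))
    (hp r (by simp)) (hp s (by simp))
  have hω' : ∀ t ∈ [x, y, z, x + y + z], ω t = f := by
    intro t ht
    have ht' : t ∈ [p, q, r, s] := hperm.mem_iff.2 ht
    simp only [List.mem_cons, List.not_mem_nil, or_false] at ht'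
    rcases ht' with rfl | rfl | rfl | rfl
    · exact h1
    · exact h2
    · exact h3
    · exact h4
  exact ⟨ω, hω, hω' x (by simp), hω' y (by simp), hω' z (by simp)⟩

theorem plane_of_cond [Finite W] {A : Fam W} (hL : Linked A) {x y z : W} (h : Cond A x y z) :
    PlaneAt A x y z := by
  rcases h with h | h | h
  · intro f fx fy fz fw
    have h0 : ∀ g : Dl W, In A 0 g → g = 0 := by
      rintro g ⟨ω, -, rfl⟩
      exact map_zero ω
    have hzero : f = 0 → ∃ ω ∈ A, ω x = f ∧ ω y = f ∧ ω z = f := by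
      rintro rfl
      exact ⟨0, A.zero_mem, by simp⟩
    rcases h with rfl | rfl | rfl | rfl | rfl | rfl | h
    · exact hzero (h0 _ fx)
    · exact hzero (h0 _ fy)
    · obtain ⟨ω, hω, h1, h2⟩ := pairL hL x z f fx fz
      exact ⟨ω, hω, h1, h1, h2⟩
    · exact hzero (h0 _ fz)
    · obtain ⟨ω, hω, h1, h2⟩ := pairL hL x y f fx fy
      exact ⟨ω, hω, h1, h2, h1⟩
    · obtain ⟨ω, hω, h1, h2⟩ := pairL hL x y f fx fy
      exact ⟨ω, hω, h1, h2, h2⟩
    · rw [h] at fw
      exact hzero (h0 _ fw)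
  · exact plane_of_small hL h
  · exact plane_of_pair hL h

theorem linked_list' [Finite W] (l : List W) : ∀ A : Fam W, EFam e A → Linked A →
    (∀ x y z : W, Cond A x y z) → Linked (l.foldl (fun B u => res B (ann u)) A) := by
  induction l with
  | nil => intro A _ h _; exact h
  | cons u l ih =>
    intro A hA hL hS
    exact ih _ (hA.res _) (linked_ann hA hL (fun x y z => plane_of_cond hL (hS x y z)) u)
      (fun x y z => (hS x y z).mono (res_le A _))

/-- linked families which satisfy the condition on planes are hereditarily linked -/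
theorem hered_of_cond [Finite W] {A : Fam W} (hA : EFam e A) (hL : Linked A)
    (hS : ∀ x y z : W, Cond A x y z) : Hered A := by
  classical
  intro X
  have : Fintype W := Fintype.ofFinite W
  let l : List W := (Finset.univ.filter (fun b : W => ∀ g ∈ X, g b = 0)).toList
  have hl : ∀ b, b ∈ l ↔ ∀ g ∈ X, g b = 0 := by
    intro b
    simp [l]
  have h1 : l.foldl (fun B u => res B (ann u)) A = res A X := by
    ext ω
    rw [mem_list l A hA ω]
    constructor
    · rintro ⟨h1, h2⟩
      refine ⟨h1, fun y => mem_of_coann fun b hb => ?_⟩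
      rw [(hA ω h1).symm, h2 b ((hl b).2 hb)]
      rfl
    · rintro ⟨h1, h2⟩
      refine ⟨h1, fun u hu => ?_⟩
      ext y
      rw [(hA ω h1).symm]
      exact (hl u).1 hu _ (h2 y)
  rw [← h1]
  exact linked_list' l A hA hL hS

end fam

/-- `x, y, z` generate a subgroup of order eight (in a group of exponent two) -/
def Independent {G : Type} [CommGroup G] (x y z : G) : Prop :=
  x ≠ 1 ∧ y ≠ 1 ∧ x ≠ y ∧ z ≠ 1 ∧ z ≠ x ∧ z ≠ y ∧ z ≠ x * y

/-- the elements `x, y, z, xyz` can be numbered as `p, q, r, s` such that `V(p) V(q)` and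
`V(r) V(s)` have index at most two in `G`, or `V(p) V(q)`, `V(p) V(r)` and `V(q) V(r)` have index
at most two in `G` -/
def PairG (S : QData) (x y z : S.G) : Prop :=
  ∃ p q r s : S.G, [p, q, r, s].Perm [x, y, z, x * y * z] ∧
    (((V S p ⊔ V S q).index ≤ 2 ∧ (V S r ⊔ V S s).index ≤ 2) ∨
      ((V S p ⊔ V S q).index ≤ 2 ∧ (V S p ⊔ V S r).index ≤ 2 ∧ (V S q ⊔ V S r).index ≤ 2))

universe v

theorem elem_of_planes (S : QData) (hS : IsQuat S) (hfin : Finite S.G) {B : Type v}
    [AddCommGroup B] (hB : ∀ b : B, b + b = 0) (β : S.G → S.G → B)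
    (hmul : ∀ a b c, β a (b * c) = β a b + β a c)
    (hiff : ∀ a b c d, β a b = β c d ↔ S.q a b = S.q c d)
    (hsmall : ∀ x y z : S.G, Independent x y z → SmallG β x y z ∨ PairG S x y z) : Elem S := by
  classical
  obtain ⟨hcore, hPL, hout, hconv⟩ := Pool.Agent.W622.ETG.all_parts
  let _ : Module (ZMod 2) (Additive S.G) := AddCommGroup.zmodModule (n := 2) (by
    intro x
    rw [two_smul]
    exact hS.exp2 x.toMul)
  have hfV : Finite (Additive S.G) := hfin
  have q1 : ∀ a, S.q a 1 = S.zero := by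
    intro a
    have := (hS.qs3 a 1 1).1 rfl
    rwa [mul_one] at this
  have b1 : ∀ a, β a 1 = 0 := by
    intro a
    have := hmul a 1 1
    rw [mul_one] at this
    exact left_eq_add.1 this
  have hz : ∀ a b, β a b = 0 ↔ S.q a b = S.zero := by
    intro a b
    rw [← b1 a, ← q1 a, hiff]
  have hsym : ∀ a b, β a b = β b a := fun a b => (hiff _ _ _ _).2 (hS.qs2 a b)
  have hmul' : ∀ a b c, β (a * b) c = β a c + β b c := by
    intro a b c
    rw [hsym, hmul, hsym c, hsym c]
  -- the form of a character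
  let frm (l : B →+ ZMod 2) : Frm (Additive S.G) :=
    AddMonoidHom.toZModLinearMap 2
      { toFun := fun a => AddMonoidHom.toZModLinearMap 2
          { toFun := fun b => l (β a.toMul b.toMul)
            map_zero' := by
              show l (β a.toMul 1) = 0
              rw [b1, map_zero]
            map_add' := fun b c => by
              show l (β a.toMul (b.toMul * c.toMul)) = _
              rw [hmul, map_add] }
        map_zero' := by
          ext b
          show l (β 1 b.toMul) = 0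
          rw [hsym, b1, map_zero]
        map_add' := fun a a' => by
          ext b
          show l (β (a.toMul * a'.toMul) b.toMul) = l _ + l _
          rw [hmul', map_add] }
  have hfrm : ∀ l a b, frm l a b = l (β a.toMul b.toMul) := fun _ _ _ => rfl
  let A : Fam (Additive S.G) :=
    { carrier := {ω | ∃ l : B →+ ZMod 2, ω = frm l}
      add_mem' := by
        rintro _ _ ⟨l, rfl⟩ ⟨l', rfl⟩
        exact ⟨l + l', by ext a b; rfl⟩
      zero_mem' := ⟨0, by ext a b; rfl⟩
      smul_mem' := by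
        rintro c _ ⟨l, rfl⟩
        refine ⟨c.val • l, ?_⟩
        ext a b
        rw [LinearMap.smul_apply, LinearMap.smul_apply, hfrm, hfrm, AddMonoidHom.nsmul_apply]
        simp }
  have hAm : ∀ ω, ω ∈ A ↔ ∃ l : B →+ ZMod 2, ω = frm l := fun _ => Iff.rfl
  set e : Additive S.G := Additive.ofMul S.neg with he
  have hEF : EFam e A := by
    rintro ω ⟨l, rfl⟩
    constructor
    · intro a b
      rw [hfrm, hfrm, hsym]
    · intro a
      have h1 : β a.toMul (S.neg * a.toMul) = 0 := (hz _ _).2 (hS.qs1 a.toMul)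
      rw [hmul] at h1
      have h2 : β a.toMul a.toMul = β a.toMul S.neg := by
        have h3 := hB (β a.toMul S.neg)
        rw [← h3] at h1
        exact add_left_cancel h1
      rw [hfrm, hfrm, h2]
      rfl
  -- linkage by gluing
  have hL : Linked A := by
    rintro ω ⟨l, rfl⟩ η ⟨m, rfl⟩ a c hac
    have hac' : ∀ b, l (β a.toMul b) = m (β c.toMul b) := by
      intro b
      have := LinearMap.congr_fun hac (Additive.ofMul b)
      rwa [hfrm, hfrm] at this
    let Φ : Additive S.G × Additive S.G →+ B :=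
      AddMonoidHom.mk' (fun z => β a.toMul z.1.toMul + β c.toMul z.2.toMul) (by
        intro z z'
        simp only [Prod.fst_add, Prod.snd_add, toMul_add, hmul]
        abel)
    let Λ : Additive S.G × Additive S.G →+ ZMod 2 :=
      AddMonoidHom.mk' (fun z => l (β a.toMul z.1.toMul) + m (β c.toMul z.2.toMul)) (by
        intro z z'
        simp only [Prod.fst_add, Prod.snd_add, toMul_add, hmul, map_add]
        abel)
    obtain ⟨k, hk⟩ := exists_factor hB Φ Λ (by
      rintro ⟨b, d⟩ h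
      have h1 : β a.toMul b.toMul + β c.toMul d.toMul = 0 := h
      have h2 : β a.toMul b.toMul = β c.toMul d.toMul := by
        have h3 := hB (β c.toMul d.toMul)
        rw [← h3] at h1
        exact add_right_cancel h1
      obtain ⟨x, hx1, hx2⟩ := hS.qs4 _ _ _ _ ((hiff _ _ _ _).1 h2)
      have e1 := (hiff _ _ _ _).2 hx1
      have e2 := (hiff _ _ _ _).2 hx2
      show l (β a.toMul b.toMul) + m (β c.toMul d.toMul) = 0
      rw [e1, e2, hac']
      exact CharTwo.add_self_eq_zero _)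
    refine ⟨frm k, ⟨k, rfl⟩, ?_, ?_⟩
    · ext b
      rw [hfrm, hfrm]
      have := hk (b, 0)
      have h1 : Φ (b, 0) = β a.toMul b.toMul := by
        show β a.toMul b.toMul + β c.toMul 1 = _
        rw [b1, add_zero]
      have h2 : Λ (b, 0) = l (β a.toMul b.toMul) := by
        show l (β a.toMul b.toMul) + m (β c.toMul 1) = _
        rw [b1, map_zero, add_zero]
      rw [h1, h2] at this
      exact this
    · ext b
      rw [hfrm, hfrm]
      have := hk (0, b)
      have h1 : Φ (0, b) = β c.toMul b.toMul := by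
        show β a.toMul 1 + β c.toMul b.toMul = _
        rw [b1, zero_add]
      have h2 : Λ (0, b) = m (β c.toMul b.toMul) := by
        show l (β a.toMul 1) + m (β c.toMul b.toMul) = _
        rw [b1, map_zero, zero_add]
      rw [h1, h2] at this
      rw [this]
      exact (hac' _).symm
  -- finiteness of the groups `Q_p`
  have hQ : ∀ p : S.G, ∀ h, h ∈ Qs β p ↔ ∃ b, β p b = h := by
    intro p h
    constructor
    · intro hh
      refine AddSubgroup.closure_induction (p := fun h _ => ∃ b, β p b = h) ?_ ?_ ?_ ?_ hh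
      · rintro _ ⟨b, rfl⟩; exact ⟨b, rfl⟩
      · exact ⟨1, b1 p⟩
      · rintro _ _ _ _ ⟨b, rfl⟩ ⟨c, rfl⟩
        exact ⟨b * c, hmul _ _ _⟩
      · rintro _ _ ⟨b, rfl⟩
        exact ⟨b, (neg_eq_iff_add_eq_zero.2 (hB _)).symm⟩
    · rintro ⟨b, rfl⟩
      exact AddSubgroup.subset_closure ⟨b, rfl⟩
  have hQfin : ∀ p : S.G, Finite (Qs β p) := by
    intro p
    have hsurj : Function.Surjective
        (fun b : S.G => (⟨β p b, AddSubgroup.subset_closure ⟨b, rfl⟩⟩ : Qs β p)) := by
      rintro ⟨h, hh⟩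
      obtain ⟨b, rfl⟩ := (hQ p h).1 hh
      exact ⟨b, rfl⟩
    exact Finite.of_surjective _ hsurj
  have hvan : ∀ (l : B →+ ZMod 2) (p : Additive S.G), (∀ h ∈ Qs β p.toMul, l h = 0) ↔
      frm l p = 0 := by
    intro l p
    constructor
    · intro h
      ext b
      rw [hfrm]
      exact h _ ((hQ _ _).2 ⟨_, rfl⟩)
    · intro h k hk
      obtain ⟨b, rfl⟩ := (hQ _ _).1 hk
      have := LinearMap.congr_fun h (Additive.ofMul b)
      rwa [hfrm] at this
  have heqv : ∀ (l m : B →+ ZMod 2) (p : Additive S.G),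
      (∀ h ∈ Qs β p.toMul, l h = m h) → frm l p = frm m p := by
    intro l m p h
    ext b
    rw [hfrm, hfrm]
    exact h _ ((hQ _ _).2 ⟨_, rfl⟩)
  have hR : ∀ p : Additive S.G, Nat.card (Qs β p.toMul) ≤ 4 → R2 A p := by
    intro p hp
    rintro ω₁ ⟨l1, rfl⟩ ω₂ ⟨l2, rfl⟩ ω₃ ⟨l3, rfl⟩
    rcases comb3 _ (hQfin _) hp l1 l2 l3 with h | h | h | h | h | h | h
    · exact Or.inl ((hvan _ _).1 h)
    · exact Or.inr (Or.inl ((hvan _ _).1 h))
    · exact Or.inr (Or.inr (Or.inl ((hvan _ _).1 h)))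
    · exact Or.inr (Or.inr (Or.inr (Or.inl (heqv _ _ _ h))))
    · exact Or.inr (Or.inr (Or.inr (Or.inr (Or.inl (heqv _ _ _ h)))))
    · exact Or.inr (Or.inr (Or.inr (Or.inr (Or.inr (Or.inl (heqv _ _ _ h))))))
    · refine Or.inr (Or.inr (Or.inr (Or.inr (Or.inr (Or.inr ?_)))))
      ext b
      rw [LinearMap.add_apply, hfrm, hfrm, hfrm]
      exact h _ ((hQ _ _).2 ⟨_, rfl⟩)
  have hCC : ∀ (p x y z : Additive S.G),
      (∀ u ∈ Qs β x.toMul ⊔ Qs β y.toMul ⊔ Qs β z.toMul,
        ∀ v ∈ Qs β x.toMul ⊔ Qs β y.toMul ⊔ Qs β z.toMul,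
        u ∈ Qs β p.toMul ∨ v ∈ Qs β p.toMul ∨ u + v ∈ Qs β p.toMul) →
      C2 A p x y z := by
    intro p x y z hp
    have hx : Qs β x.toMul ≤ Qs β x.toMul ⊔ Qs β y.toMul ⊔ Qs β z.toMul :=
      le_sup_of_le_left le_sup_left
    have hy : Qs β y.toMul ≤ Qs β x.toMul ⊔ Qs β y.toMul ⊔ Qs β z.toMul :=
      le_sup_of_le_left le_sup_right
    have hz' : Qs β z.toMul ≤ Qs β x.toMul ⊔ Qs β y.toMul ⊔ Qs β z.toMul := le_sup_right
    rintro ω₁ ⟨l1, rfl⟩ ω₂ ⟨l2, rfl⟩ e1 e2
    rcases comb2 _ _ hp l1 l2 ((hvan _ _).2 e1) ((hvan _ _).2 e2) with h | h | h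
    · exact Or.inl ⟨(hvan _ _).1 fun k hk => h k (hx hk), (hvan _ _).1 fun k hk => h k (hy hk),
        (hvan _ _).1 fun k hk => h k (hz' hk)⟩
    · exact Or.inr (Or.inl ⟨(hvan _ _).1 fun k hk => h k (hx hk),
        (hvan _ _).1 fun k hk => h k (hy hk), (hvan _ _).1 fun k hk => h k (hz' hk)⟩)
    · exact Or.inr (Or.inr ⟨heqv _ _ _ fun k hk => h k (hx hk),
        heqv _ _ _ fun k hk => h k (hy hk), heqv _ _ _ fun k hk => h k (hz' hk)⟩)
  have hThin : ∀ p q : S.G, (V S p ⊔ V S q).index ≤ 2 →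
      Thin A (Additive.ofMul p) (Additive.ofMul q) := by
    intro p q hpq f g hfp hfq hgp hgq
    have hzero : ∀ f : Dl (Additive S.G), In A (Additive.ofMul p) f → In A (Additive.ofMul q) f →
        ∀ x ∈ V S p ⊔ V S q, f (Additive.ofMul x) = 0 := by
      rintro f ⟨_, ⟨l, rfl⟩, h1⟩ ⟨_, ⟨m, rfl⟩, h2⟩ x hx
      obtain ⟨v, hv, w, hw, rfl⟩ := mem_sup' hx
      have h3 : f (Additive.ofMul v) = 0 := by
        rw [← h1, hfrm]
        have : β p v = 0 := (hz p v).2 ((mem_V hS).1 hv)
        show l (β p v) = 0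
        rw [this, map_zero]
      have h4 : f (Additive.ofMul w) = 0 := by
        rw [← h2, hfrm]
        have : β q w = 0 := (hz q w).2 ((mem_V hS).1 hw)
        show m (β q w) = 0
        rw [this, map_zero]
      show f (Additive.ofMul v + Additive.ofMul w) = 0
      rw [map_add, h3, h4, add_zero]
    have hf0 := hzero f hfp hfq
    have hg0 := hzero g hgp hgq
    by_cases hf : f = 0
    · exact Or.inl hf
    by_cases hg : g = 0
    · exact Or.inr (Or.inl hg)
    right; right
    obtain ⟨x0, hx0⟩ : ∃ x, f x ≠ 0 := by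
      by_contra hc
      push Not at hc
      exact hf (LinearMap.ext hc)
    obtain ⟨y0, hy0⟩ : ∃ y, g y ≠ 0 := by
      by_contra hc
      push Not at hc
      exact hg (LinearMap.ext hc)
    have hx1 : x0.toMul ∉ V S p ⊔ V S q := fun h => hx0 (hf0 _ h)
    have hidx : (V S p ⊔ V S q).index = 2 := by
      have h0 : (V S p ⊔ V S q).index ≠ 0 := Subgroup.FiniteIndex.index_ne_zero
      have h1 : (V S p ⊔ V S q).index ≠ 1 := by
        intro h
        rw [Subgroup.index_eq_one.1 h] at hx1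
        exact hx1 trivial
      omega
    have h01 : ∀ z : ZMod 2, z ≠ 0 → z = 1 := by decide
    have hval : ∀ (k : Dl (Additive S.G)), (∀ x ∈ V S p ⊔ V S q, k (Additive.ofMul x) = 0) →
        (∃ y, k y ≠ 0) → ∀ x : S.G, x ∉ V S p ⊔ V S q → k (Additive.ofMul x) = 1 := by
      rintro k hk ⟨y, hy⟩ x hx
      have hy1 : y.toMul ∉ V S p ⊔ V S q := fun h => hy (hk _ h)
      have h3 : x * y.toMul ∈ V S p ⊔ V S q :=
        (Subgroup.mul_mem_iff_of_index_two hidx).2 ⟨fun h => absurd h hx, fun h => absurd h hy1⟩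
      have h4 := hk _ h3
      have h5 : k (Additive.ofMul x) + k y = 0 := by
        rw [← map_add]
        exact h4
      rw [h01 _ hy] at h5
      have h6 : ∀ z : ZMod 2, z + 1 = 0 → z = 1 := by decide
      exact h6 _ h5
    refine LinearMap.ext fun x => ?_
    by_cases hx : x.toMul ∈ V S p ⊔ V S q
    · exact (hf0 _ hx).trans (hg0 _ hx).symm
    · exact (hval f hf0 ⟨x0, hx0⟩ _ hx).trans (hval g hg0 ⟨y0, hy0⟩ _ hx).symm
  have hsm : ∀ x y z : Additive S.G, Cond A x y z := by
    intro x y z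
    by_cases hind : Independent (G := S.G) x.toMul y.toMul z.toMul
    · rcases hsmall x.toMul y.toMul z.toMul hind with (h | ⟨p, hp, h⟩) | h
      · exact Or.inr (Or.inl (Or.inl ⟨hR _ (h _ (Or.inl rfl)), hR _ (h _ (Or.inr (Or.inl rfl))),
          hR _ (h _ (Or.inr (Or.inr (Or.inl rfl)))), hR _ (h _ (Or.inr (Or.inr (Or.inr rfl))))⟩))
      · refine Or.inr (Or.inl ?_)
        rcases hp with rfl | rfl | rfl | rfl
        · exact Or.inr (Or.inl (hCC _ _ _ _ h))
        · exact Or.inr (Or.inr (Or.inl (hCC _ _ _ _ h)))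
        · exact Or.inr (Or.inr (Or.inr (Or.inl (hCC _ _ _ _ h))))
        · exact Or.inr (Or.inr (Or.inr (Or.inr (hCC (x + y + z) _ _ _ h))))
      · refine Or.inr (Or.inr ?_)
        obtain ⟨p, q, r, s, hperm, h⟩ := h
        refine ⟨Additive.ofMul p, Additive.ofMul q, Additive.ofMul r, Additive.ofMul s, hperm, ?_⟩
        rcases h with ⟨h1, h2⟩ | ⟨h1, h2, h3⟩
        · exact Or.inl ⟨hThin _ _ h1, hThin _ _ h2⟩
        · exact Or.inr ⟨hThin _ _ h1, hThin _ _ h2, hThin _ _ h3⟩
    · left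
      have h0 : ∀ t : Additive S.G, t = 0 ↔ t.toMul = 1 := fun t => Iff.rfl
      by_cases h1 : x = 0
      · exact Or.inl h1
      by_cases h2 : y = 0
      · exact Or.inr (Or.inl h2)
      by_cases h3 : x = y
      · exact Or.inr (Or.inr (Or.inl h3))
      by_cases h4 : z = 0
      · exact Or.inr (Or.inr (Or.inr (Or.inl h4)))
      by_cases h5 : x = z
      · exact Or.inr (Or.inr (Or.inr (Or.inr (Or.inl h5))))
      by_cases h6 : y = z
      · exact Or.inr (Or.inr (Or.inr (Or.inr (Or.inr (Or.inl h6)))))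
      · refine Or.inr (Or.inr (Or.inr (Or.inr (Or.inr (Or.inr ?_)))))
        have h7 : z.toMul = x.toMul * y.toMul := by
          by_contra h7
          exact hind ⟨h1, h2, h3, h4, Ne.symm h5, Ne.symm h6, h7⟩
        have h8 : z = x + y := h7
        rw [h8]
        exact vadd (x + y)
  have hher : Hered A := hered_of_cond hEF hL hsm
  have hElem : Elem (QD e A) := hout _ _ _ (hcore _ _ _ hEF hher)
  refine Elem.iso _ _ hElem ⟨MulEquiv.multiplicativeAdditive S.G, rfl, ?_⟩
  intro a b c d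
  rw [QD_eq]
  constructor
  · intro h
    show S.q a.toAdd.toMul b.toAdd.toMul = S.q c.toAdd.toMul d.toAdd.toMul
    rw [← hiff]
    by_contra hne
    obtain ⟨l, -, hl⟩ := exists_char (⊥ : AddSubgroup B) (fun x => by
      rw [AddSubgroup.mem_bot]; exact hB x)
      (β a.toAdd.toMul b.toAdd.toMul - β c.toAdd.toMul d.toAdd.toMul) (by
        rw [AddSubgroup.mem_bot, sub_eq_zero]; exact hne)
    apply hl
    rw [map_sub, sub_eq_zero]
    exact h (frm l) ⟨l, rfl⟩
  · rintro h ω ⟨l, rfl⟩
    rw [hfrm, hfrm]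
    congr 1
    exact (hiff _ _ _ _).2 h


end Pool.Agent.X269.ET
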